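import Mathlib

set_option autoImplicit false

namespace Pool.Agent.Lib.MP_14e06f_lc

/-- A linkage: a finite graph with a positive rational length assigned to each edge (bar). -/
structure Linkage where
  /-- the vertices -/
  V : Type
  /-- there are finitely many vertices -/
  fin : Finite V
  /-- the underlying graph; its edges are the bars -/
  graph : SimpleGraph V
  /-- the lengths of the bars (the value is irrelevant for non-adjacent vertices) -/
  len : V → V → ℚ
  /-- the length does not depend on the orientation of the bar -/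
  len_symm : ∀ u v, len u v = len v u
  /-- the lengths of the bars are positive -/
  len_pos : ∀ u v, graph.Adj u v → 0 < len u v

/-- `p` is a configuration of `L` in `ℝ³`: every bar has its prescribed length, and two different
bars meet only at a shared endpoint. -/
def Linkage.IsConfig (L : Linkage) (p : L.V → EuclideanSpace ℝ (Fin 3)) : Prop :=
  (∀ u v, L.graph.Adj u v → dist (p u) (p v) = (L.len u v : ℝ)) ∧
  (∀ u v x y, L.graph.Adj u v → L.graph.Adj x y → s(u, v) ≠ s(x, y) →
    ∀ z, z ∈ segment ℝ (p u) (p v) → z ∈ segment ℝ (p x) (p y) →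
      ∃ w, (w = u ∨ w = v) ∧ (w = x ∨ w = y) ∧ z = p w)

/-- the configuration space in `ℝ³` -/
def Linkage.configSpace (L : Linkage) : Set (L.V → EuclideanSpace ℝ (Fin 3)) := {p | L.IsConfig p}

/-- `L` is locked in `ℝ³`: its configuration space is disconnected, that is, some two
configurations are not joined by a motion (a continuous path of configurations). -/
def Linkage.Locked (L : Linkage) : Prop :=
  ∃ p q, L.IsConfig p ∧ L.IsConfig q ∧ ¬ JoinedIn L.configSpace p q

/-! ### The linkage of a graph -/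

/-- The vertices of the linkage built from a graph `H` on `{0, …, n-1}`: two poles `a`, `b`, one
vertex `v i` for every vertex of `H`, one vertex `m i j` for every edge `ij` (`i < j`) of `H`, and
three more vertices `t k` forming a tetrahedron with `a`. -/
inductive Vx {n : ℕ} (H : SimpleGraph (Fin n)) : Type
  | a : Vx H
  | b : Vx H
  | v (i : Fin n) : Vx H
  | m (i j : Fin n) (hij : i < j) (h : H.Adj i j) : Vx H
  | t (k : Fin 3) : Vx H

/-- The bars, each in one orientation: `ab`, `a (v i)`, `b (v i)`, the two bars joining `m i j` to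
`v i` and `v j`, and the six edges of the tetrahedron `a, t 0, t 1, t 2`. -/
def IsBar {n : ℕ} (H : SimpleGraph (Fin n)) : Vx H → Vx H → Prop
  | .a, .b => True
  | .a, .v _ => True
  | .b, .v _ => True
  | .v k, .m i j _ _ => k = i ∨ k = j
  | .a, .t _ => True
  | .t k, .t l => k < l
  | _, _ => False

/-- The lengths: `2` for `ab`, `a (v i)`, `b (v i)`; for an edge `ij` of `H` with `i < j` length
`10` for the bar `v i — m i j` and `7 + 1/(n+1)` for the bar `v j — m i j`; and `1` for the edges
of the tetrahedron. -/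
def barLen {n : ℕ} (H : SimpleGraph (Fin n)) : Vx H → Vx H → ℚ
  | .v k, .m i _ _ _ => if k = i then 10 else 7 + 1 / (n + 1)
  | .m i _ _ _, .v k => if k = i then 10 else 7 + 1 / (n + 1)
  | .a, .t _ => 1
  | .t _, .a => 1
  | .t _, .t _ => 1
  | _, _ => 2

theorem vx_finite {n : ℕ} (H : SimpleGraph (Fin n)) : Finite (Vx H) := by
  let f : Vx H → (Unit ⊕ Unit) ⊕ (Fin n ⊕ ((Fin n × Fin n) ⊕ Fin 3)) := fun x => match x with
    | .a => Sum.inl (Sum.inl ())
    | .b => Sum.inl (Sum.inr ())
    | .v i => Sum.inr (Sum.inl i)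
    | .m i j _ _ => Sum.inr (Sum.inr (Sum.inl (i, j)))
    | .t k => Sum.inr (Sum.inr (Sum.inr k))
  apply Finite.of_injective f
  intro x y hxy
  cases x <;> cases y <;> simp_all [f]

/-- The linkage built from the graph `H`. -/
def linkageOf {n : ℕ} (H : SimpleGraph (Fin n)) : Linkage where
  V := Vx H
  fin := vx_finite H
  graph := SimpleGraph.fromRel (IsBar H)
  len := barLen H
  len_symm := by
    intro x y
    cases x <;> cases y <;> rfl
  len_pos := by
    intro x y _
    cases x <;> cases y <;> simp only [barLen] <;> try norm_num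
    all_goals split
    all_goals positivity

/-! ### Oriented bars with their lengths, for case distinctions -/

/-- the oriented bars with their lengths -/
inductive Bar {n : ℕ} (H : SimpleGraph (Fin n)) : Vx H → Vx H → ℚ → Prop
  | ab : Bar H .a .b 2
  | av (i : Fin n) : Bar H .a (.v i) 2
  | bv (i : Fin n) : Bar H .b (.v i) 2
  | vm (i j : Fin n) (hij : i < j) (h : H.Adj i j) : Bar H (.v i) (.m i j hij h) 10
  | wm (i j : Fin n) (hij : i < j) (h : H.Adj i j) : Bar H (.v j) (.m i j hij h) (7 + 1 / (n + 1))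
  | at (k : Fin 3) : Bar H .a (.t k) 1
  | tt (k l : Fin 3) (hkl : k < l) : Bar H (.t k) (.t l) 1

theorem bar_of_isBar {n : ℕ} {H : SimpleGraph (Fin n)} {x y : Vx H} (h : IsBar H x y) :
    Bar H x y (barLen H x y) := by
  cases x <;> cases y <;> simp only [IsBar] at h
  · exact Bar.ab
  · exact Bar.av _
  · exact Bar.at _
  · exact Bar.bv _
  · rename_i k i j hij hH
    rcases h with rfl | rfl
    · have : barLen H (.v k) (.m k j hij hH) = 10 := by simp [barLen]
      rw [this]
      exact Bar.vm _ _ _ _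
    · have : barLen H (.v k) (.m i k hij hH) = 7 + 1 / (n + 1) := by
        have : k ≠ i := hij.ne'
        simp [barLen, this]
      rw [this]
      exact Bar.wm _ _ _ _
  · exact Bar.tt _ _ h

theorem Bar.isBar {n : ℕ} {H : SimpleGraph (Fin n)} {x y : Vx H} {q : ℚ} (h : Bar H x y q) :
    IsBar H x y ∧ barLen H x y = q := by
  cases h
  · exact ⟨trivial, rfl⟩
  · exact ⟨trivial, rfl⟩
  · exact ⟨trivial, rfl⟩
  · exact ⟨Or.inl rfl, by simp [barLen]⟩
  · rename_i i j hij hH
    refine ⟨Or.inr rfl, ?_⟩
    have : j ≠ i := hij.ne'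
    simp [barLen, this]
  · exact ⟨trivial, rfl⟩
  · rename_i k l hkl
    exact ⟨hkl, rfl⟩

theorem Bar.ne {n : ℕ} {H : SimpleGraph (Fin n)} {x y : Vx H} {q : ℚ} (h : Bar H x y q) :
    x ≠ y := by
  cases h <;> simp
  rename_i k l hkl
  exact hkl.ne

theorem adj_iff {n : ℕ} {H : SimpleGraph (Fin n)} {x y : Vx H} :
    (linkageOf H).graph.Adj x y ↔ Bar H x y (barLen H x y) ∨ Bar H y x (barLen H x y) := by
  show (SimpleGraph.fromRel (IsBar H)).Adj x y ↔ _
  rw [SimpleGraph.fromRel_adj]
  constructor
  · rintro ⟨hne, h | h⟩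
    · exact Or.inl (bar_of_isBar h)
    · right
      have := (linkageOf H).len_symm x y
      have h' := bar_of_isBar h
      rw [show barLen H x y = barLen H y x from this]
      exact h'
  · rintro (h | h)
    · exact ⟨h.ne, Or.inl h.isBar.1⟩
    · exact ⟨h.ne.symm, Or.inr h.isBar.1⟩

/-- It suffices to check oriented bars. -/
theorem isConfig_iff {n : ℕ} {H : SimpleGraph (Fin n)} (p : Vx H → EuclideanSpace ℝ (Fin 3)) :
    (linkageOf H).IsConfig p ↔
      (∀ x y q, Bar H x y q → dist (p x) (p y) = (q : ℝ)) ∧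
      (∀ u v x y q r, Bar H u v q → Bar H x y r → (u, v) ≠ (x, y) →
        ∀ z, z ∈ segment ℝ (p u) (p v) → z ∈ segment ℝ (p x) (p y) →
          ∃ w, (w = u ∨ w = v) ∧ (w = x ∨ w = y) ∧ z = p w) := by
  constructor
  · rintro ⟨h1, h2⟩
    refine ⟨?_, ?_⟩
    · intro x y q hq
      have hq' := hq.isBar
      have := h1 x y (adj_iff.2 (Or.inl (by rw [hq'.2]; exact hq)))
      rw [this]
      show ((barLen H x y : ℚ) : ℝ) = q
      rw [hq'.2]
    · intro u v x y q r hq hr hne
      apply h2 u v x y (adj_iff.2 (Or.inl (by rw [hq.isBar.2]; exact hq)))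
        (adj_iff.2 (Or.inl (by rw [hr.isBar.2]; exact hr)))
      intro hs
      rcases Sym2.eq_iff.1 hs with ⟨rfl, rfl⟩ | ⟨rfl, rfl⟩
      · exact hne rfl
      · -- both orientations cannot be bars
        cases hq <;> cases hr
        rename_i k l h1 h2
        exact absurd h1 (not_lt.2 h2.le)
  · rintro ⟨h1, h2⟩
    refine ⟨?_, ?_⟩
    · intro x y hxy
      rcases adj_iff.1 hxy with h | h
      · exact h1 _ _ _ h
      · rw [dist_comm]
        exact h1 _ _ _ h
    · intro u v x y huv hxy hne z hz hz'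
      rcases adj_iff.1 huv with h | h <;> rcases adj_iff.1 hxy with h' | h'
      · exact h2 _ _ _ _ _ _ h h' (fun e => hne (by
          have e' := Prod.mk.inj e; exact Sym2.eq_iff.2 (Or.inl ⟨e'.1, e'.2⟩))) z hz hz'
      · rw [segment_symm] at hz'
        obtain ⟨w, a1, a2, a3⟩ := h2 _ _ _ _ _ _ h h' (fun e => hne (by
          have e' := Prod.mk.inj e; exact Sym2.eq_iff.2 (Or.inr ⟨e'.1, e'.2⟩))) z hz hz'
        exact ⟨w, a1, a2.symm, a3⟩
      · rw [segment_symm] at hz
        obtain ⟨w, a1, a2, a3⟩ := h2 _ _ _ _ _ _ h h' (fun e => hne (by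
          have e' := Prod.mk.inj e; exact Sym2.eq_iff.2 (Or.inr ⟨e'.2, e'.1⟩))) z hz hz'
        exact ⟨w, a1.symm, a2, a3⟩
      · rw [segment_symm] at hz hz'
        obtain ⟨w, a1, a2, a3⟩ := h2 _ _ _ _ _ _ h h' (fun e => hne (by
          have e' := Prod.mk.inj e; exact Sym2.eq_iff.2 (Or.inl ⟨e'.2, e'.1⟩))) z hz hz'
        exact ⟨w, a1.symm, a2.symm, a3⟩

end Pool.Agent.Lib.MP_14e06f_lc
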