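import Mathlib

set_option autoImplicit false

namespace Pool.Agent.Lib.MP_14e06f_lc

open scoped InnerProductSpace

/-- Euclidean three-space -/
abbrev E3 := EuclideanSpace ℝ (Fin 3)

theorem inner_E3 (a b : E3) : ⟪a, b⟫_ℝ = a 0 * b 0 + a 1 * b 1 + a 2 * b 2 := by
  simp [PiLp.inner_apply, Fin.sum_univ_three, mul_comm]

theorem dist_sq_E3 (a b : E3) : dist a b ^ 2 = (a 0 - b 0) ^ 2 + (a 1 - b 1) ^ 2 + (a 2 - b 2) ^ 2 := by
  rw [EuclideanSpace.dist_eq, Real.sq_sqrt (by positivity), Fin.sum_univ_three]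
  simp [Real.dist_eq, sq_abs]

theorem norm_sq_E3 (a : E3) : ‖a‖ ^ 2 = a 0 ^ 2 + a 1 ^ 2 + a 2 ^ 2 := by
  rw [EuclideanSpace.norm_eq, Real.sq_sqrt (by positivity), Fin.sum_univ_three]
  simp [sq_abs]

/-- two orthonormal vectors orthogonal to a given nonzero vector -/
theorem exists_frame (w : E3) (hw : w ≠ 0) : ∃ a b : E3, ‖a‖ = 1 ∧ ‖b‖ = 1 ∧ ⟪a, b⟫_ℝ = 0 ∧
    ⟪w, a⟫_ℝ = 0 ∧ ⟪w, b⟫_ℝ = 0 ∧
    ∀ x : E3, ⟪w, x⟫_ℝ = 0 → x = ⟪a, x⟫_ℝ • a + ⟪b, x⟫_ℝ • b := by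
  have : Fact (Module.finrank ℝ E3 = 2 + 1) := ⟨by simp⟩
  have hfr : Module.finrank ℝ (ℝ ∙ w)ᗮ = 2 := Submodule.finrank_orthogonal_span_singleton hw
  let e := (stdOrthonormalBasis ℝ (ℝ ∙ w)ᗮ).reindex (finCongr hfr)
  have h0 : ‖e 0‖ = 1 := e.orthonormal.1 0
  have h1 : ‖e 1‖ = 1 := e.orthonormal.1 1
  have h01 : ⟪e 0, e 1⟫_ℝ = 0 := e.orthonormal.2 (by decide)
  refine ⟨e 0, e 1, ?_, ?_, ?_, ?_, ?_, ?_⟩
  · exact h0
  · exact h1
  · exact h01
  · exact (Submodule.mem_orthogonal_singleton_iff_inner_right).1 (e 0).2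
  · exact (Submodule.mem_orthogonal_singleton_iff_inner_right).1 (e 1).2
  · intro x hx
    have hx' : x ∈ (ℝ ∙ w)ᗮ := (Submodule.mem_orthogonal_singleton_iff_inner_right).2 hx
    have := e.sum_repr' ⟨x, hx'⟩
    rw [Fin.sum_univ_two] at this
    have h := congrArg (Subtype.val) this
    simpa using h.symm

/-- the circle of points at distances `l1`, `l2` from `u`, `v` -/
def Circ (u v : E3) (l1 l2 : ℝ) : Set E3 := {m | dist u m = l1 ∧ dist v m = l2}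

theorem circ_symm (u v : E3) (l1 l2 : ℝ) : Circ u v l1 l2 = Circ v u l2 l1 := by
  ext m
  exact and_comm

theorem circ_infinite (u v : E3) (l1 l2 : ℝ) (h1 : 0 < l1) (h2 : 0 < l2)
    (hlo : |l1 - l2| < dist u v) (hhi : dist u v < l1 + l2) : (Circ u v l1 l2).Infinite := by
  set w := v - u with hw
  have hwn : ‖w‖ = dist u v := by rw [hw, dist_eq_norm, norm_sub_rev]
  have hpos : 0 < dist u v := lt_of_le_of_lt (abs_nonneg _) hlo
  have hw0 : w ≠ 0 := by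
    rw [← norm_pos_iff, hwn]; exact hpos
  obtain ⟨a, b, ha, hb, hab, hwa, hwb, -⟩ := exists_frame w hw0
  set D := dist u v with hD
  set κ := (l1 ^ 2 + D ^ 2 - l2 ^ 2) / 2 with hκ
  have hρ : 0 < l1 ^ 2 - κ ^ 2 / D ^ 2 := by
    have hlo' := abs_lt.1 hlo
    have h3 : κ ^ 2 < (l1 * D) ^ 2 := by
      apply sq_lt_sq'
      · rw [hκ]
        nlinarith
      · rw [hκ]
        nlinarith
    have : κ ^ 2 / D ^ 2 < l1 ^ 2 := by
      rw [div_lt_iff₀ (by positivity)]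
      nlinarith
    linarith
  set ρ := Real.sqrt (l1 ^ 2 - κ ^ 2 / D ^ 2) with hρdef
  have hρ2 : ρ ^ 2 = l1 ^ 2 - κ ^ 2 / D ^ 2 := Real.sq_sqrt hρ.le
  have hρ0 : 0 < ρ := Real.sqrt_pos.2 hρ
  let f : ℝ → E3 := fun t => u + ((κ / D ^ 2) • w + ((ρ * t) • a + (ρ * Real.sqrt (1 - t ^ 2)) • b))
  have hinj : Set.InjOn f (Set.Icc (-1) 1) := by
    intro s hs t ht hst
    have h1 : ⟪a, f s - u⟫_ℝ = ⟪a, f t - u⟫_ℝ := by rw [hst]
    simp only [f, add_sub_cancel_left, inner_add_right, inner_smul_right, real_inner_self_eq_norm_sq,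
      ha, hab, real_inner_comm w a, hwa] at h1
    have h2 : ρ * s = ρ * t := by linarith
    exact mul_left_cancel₀ hρ0.ne' h2
  have hsub : f '' (Set.Icc (-1) 1) ⊆ Circ u v l1 l2 := by
    rintro _ ⟨t, ht, rfl⟩
    have ht2 : 0 ≤ 1 - t ^ 2 := by nlinarith [ht.1, ht.2]
    have hs2 : Real.sqrt (1 - t ^ 2) ^ 2 = 1 - t ^ 2 := Real.sq_sqrt ht2
    have hww : ⟪w, w⟫_ℝ = D ^ 2 := by rw [real_inner_self_eq_norm_sq, hwn]
    have hba : ⟪b, a⟫_ℝ = 0 := by rw [real_inner_comm, hab]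
    have haw : ⟪a, w⟫_ℝ = 0 := by rw [real_inner_comm, hwa]
    have hbw : ⟪b, w⟫_ℝ = 0 := by rw [real_inner_comm, hwb]
    have haa : ⟪a, a⟫_ℝ = 1 := by rw [real_inner_self_eq_norm_sq, ha]; norm_num
    have hbb : ⟪b, b⟫_ℝ = 1 := by rw [real_inner_self_eq_norm_sq, hb]; norm_num
    have e1 : dist u (f t) ^ 2 = l1 ^ 2 := by
      rw [dist_comm, dist_eq_norm, ← real_inner_self_eq_norm_sq]
      simp only [f, add_sub_cancel_left, inner_add_right, inner_add_left, inner_smul_right,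
        inner_smul_left, hww, haw, hbw, hwa, hwb, hab, hba, haa, hbb, RCLike.conj_to_real]
      have : κ / D ^ 2 * (κ / D ^ 2 * D ^ 2) = κ ^ 2 / D ^ 2 := by field_simp
      have h3 : ρ * t * (ρ * t) + (ρ * Real.sqrt (1 - t ^ 2)) * (ρ * Real.sqrt (1 - t ^ 2)) = ρ ^ 2 := by
        have : ρ * t * (ρ * t) + (ρ * Real.sqrt (1 - t ^ 2)) * (ρ * Real.sqrt (1 - t ^ 2)) =
          ρ ^ 2 * (t ^ 2 + Real.sqrt (1 - t ^ 2) ^ 2) := by ring
        rw [this, hs2]; ring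
      linarith
    have e2 : dist v (f t) ^ 2 = l2 ^ 2 := by
      rw [dist_comm, dist_eq_norm, ← real_inner_self_eq_norm_sq]
      have hfv : f t - v = ((κ / D ^ 2 - 1) • w + ((ρ * t) • a + (ρ * Real.sqrt (1 - t ^ 2)) • b)) := by
        simp only [f, hw]
        module
      rw [hfv]
      simp only [inner_add_right, inner_add_left, inner_smul_right,
        inner_smul_left, hww, haw, hbw, hwa, hwb, hab, hba, haa, hbb, RCLike.conj_to_real]
      have hD0 : D ^ 2 ≠ 0 := by positivity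
      have : (κ / D ^ 2 - 1) * ((κ / D ^ 2 - 1) * D ^ 2) = κ ^ 2 / D ^ 2 - 2 * κ + D ^ 2 := by
        field_simp
        ring
      have h3 : ρ * t * (ρ * t) + (ρ * Real.sqrt (1 - t ^ 2)) * (ρ * Real.sqrt (1 - t ^ 2)) = ρ ^ 2 := by
        have : ρ * t * (ρ * t) + (ρ * Real.sqrt (1 - t ^ 2)) * (ρ * Real.sqrt (1 - t ^ 2)) =
          ρ ^ 2 * (t ^ 2 + Real.sqrt (1 - t ^ 2) ^ 2) := by ring
        rw [this, hs2]; ring
      have h4 : 2 * κ = l1 ^ 2 + D ^ 2 - l2 ^ 2 := by rw [hκ]; ring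
      linarith
    exact ⟨(sq_eq_sq₀ dist_nonneg h1.le).1 e1, (sq_eq_sq₀ dist_nonneg h2.le).1 e2⟩
  exact ((Set.Icc_infinite (by norm_num : (-1 : ℝ) < 1)).image hinj).mono hsub

/-- a plane through `u` meets the circle in finitely many points -/
theorem circ_plane_finite (u v : E3) (l1 l2 : ℝ)
    (hκ : l1 ^ 2 + dist u v ^ 2 - l2 ^ 2 ≠ 0) (n : E3) (hn : n ≠ 0) :
    {m | m ∈ Circ u v l1 l2 ∧ ⟪n, m - u⟫_ℝ = 0}.Finite := by
  by_cases hne : {m | m ∈ Circ u v l1 l2 ∧ ⟪n, m - u⟫_ℝ = 0}.Nonempty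
  swap
  · rw [Set.not_nonempty_iff_eq_empty] at hne
    rw [hne]
    exact Set.finite_empty
  obtain ⟨m0, ⟨hm1, hm2⟩, hm3⟩ := hne
  -- the cross product of `w = v - u` and `n`
  set w := v - u with hw
  have key : ∀ m, m ∈ Circ u v l1 l2 → 2 * ⟪w, m - u⟫_ℝ = l1 ^ 2 + dist u v ^ 2 - l2 ^ 2 := by
    rintro m ⟨h1, h2⟩
    rw [← h1, ← h2, dist_sq_E3, dist_sq_E3, dist_sq_E3, inner_E3]
    simp only [hw, PiLp.sub_apply]
    ring
  let c0 := w 1 * n 2 - w 2 * n 1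
  let c1 := w 2 * n 0 - w 0 * n 2
  let c2 := w 0 * n 1 - w 1 * n 0
  let cc := c0 ^ 2 + c1 ^ 2 + c2 ^ 2
  have hn2 : n 0 ^ 2 + n 1 ^ 2 + n 2 ^ 2 ≠ 0 := by
    rw [← norm_sq_E3]
    exact pow_ne_zero 2 (norm_ne_zero_iff.2 hn)
  have hcc : cc ≠ 0 := by
    intro hcc
    have h0 : c0 = 0 := by
      have : c0 ^ 2 ≤ 0 := by nlinarith [sq_nonneg c1, sq_nonneg c2]
      exact pow_eq_zero_iff (two_ne_zero) |>.1 (le_antisymm this (sq_nonneg _))
    have h1 : c1 = 0 := by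
      have : c1 ^ 2 ≤ 0 := by nlinarith [sq_nonneg c0, sq_nonneg c2]
      exact pow_eq_zero_iff (two_ne_zero) |>.1 (le_antisymm this (sq_nonneg _))
    have h2 : c2 = 0 := by
      have : c2 ^ 2 ≤ 0 := by nlinarith [sq_nonneg c1, sq_nonneg c0]
      exact pow_eq_zero_iff (two_ne_zero) |>.1 (le_antisymm this (sq_nonneg _))
    -- then `w` is parallel to `n`
    have hk := key m0 ⟨hm1, hm2⟩
    rw [inner_E3] at hk hm3
    simp only [PiLp.sub_apply] at hk hm3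
    apply hκ
    have : (n 0 ^ 2 + n 1 ^ 2 + n 2 ^ 2) * (l1 ^ 2 + dist u v ^ 2 - l2 ^ 2) = 0 := by
      rw [← hk]
      simp only [c0, c1, c2] at h0 h1 h2
      linear_combination (2 * (w 0 * n 0 + w 1 * n 1 + w 2 * n 2)) * hm3 +
        (2 * (n 2 * (m0 1 - u 1) - n 1 * (m0 2 - u 2))) * h0 +
        (2 * (n 0 * (m0 2 - u 2) - n 2 * (m0 0 - u 0))) * h1 +
        (2 * (n 1 * (m0 0 - u 0) - n 0 * (m0 1 - u 1))) * h2
    exact (mul_eq_zero.1 this).resolve_left hn2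
  let y0 := (m0 0 - u 0) * c0 + (m0 1 - u 1) * c1 + (m0 2 - u 2) * c2
  let m1 : E3 := !₂[m0 0 - 2 * y0 / cc * c0, m0 1 - 2 * y0 / cc * c1, m0 2 - 2 * y0 / cc * c2]
  apply Set.Finite.subset (Set.toFinite {m0, m1})
  rintro m ⟨hm, hm'⟩
  -- the difference is orthogonal to `w` and `n`
  have hk0 := key m0 ⟨hm1, hm2⟩
  have hk := key m hm
  have hd : dist u m ^ 2 = dist u m0 ^ 2 := by rw [hm.1, hm1]
  rw [dist_sq_E3, dist_sq_E3] at hd
  rw [inner_E3] at hk0 hk hm3 hm'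
  simp only [PiLp.sub_apply] at hk0 hk hm3 hm'
  set d0 := m 0 - m0 0 with hd0
  set d1 := m 1 - m0 1 with hd1
  set d2 := m 2 - m0 2 with hd2
  have ow : w 0 * d0 + w 1 * d1 + w 2 * d2 = 0 := by
    rw [hd0, hd1, hd2]; linarith
  have on : n 0 * d0 + n 1 * d1 + n 2 * d2 = 0 := by
    rw [hd0, hd1, hd2]; linarith
  let s := (d0 * c0 + d1 * c1 + d2 * c2) / cc
  have e0 : d0 = s * c0 := by
    have : cc * d0 = (d0 * c0 + d1 * c1 + d2 * c2) * c0 := by
      simp only [cc]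
      linear_combination (n 1 * c2 - n 2 * c1) * ow - (w 1 * c2 - w 2 * c1) * on
    simp only [s]
    field_simp
    linarith
  have e1 : d1 = s * c1 := by
    have : cc * d1 = (d0 * c0 + d1 * c1 + d2 * c2) * c1 := by
      simp only [cc]
      linear_combination (n 2 * c0 - n 0 * c2) * ow - (w 2 * c0 - w 0 * c2) * on
    simp only [s]
    field_simp
    linarith
  have e2 : d2 = s * c2 := by
    have : cc * d2 = (d0 * c0 + d1 * c1 + d2 * c2) * c2 := by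
      simp only [cc]
      linear_combination (n 0 * c1 - n 1 * c0) * ow - (w 0 * c1 - w 1 * c0) * on
    simp only [s]
    field_simp
    linarith
  have hs : s * (2 * y0 + s * cc) = 0 := by
    have a0 : m 0 = m0 0 + s * c0 := by linarith
    have a1 : m 1 = m0 1 + s * c1 := by linarith
    have a2 : m 2 = m0 2 + s * c2 := by linarith
    rw [a0, a1, a2] at hd
    simp only [y0, cc]
    linarith
  rcases mul_eq_zero.1 hs with h | h
  · left
    ext i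
    fin_cases i
    · show m 0 = m0 0
      rw [h] at e0; linarith
    · show m 1 = m0 1
      rw [h] at e1; linarith
    · show m 2 = m0 2
      rw [h] at e2; linarith
  · right
    have hs' : s = - (2 * y0 / cc) := by
      field_simp
      linarith
    rw [Set.mem_singleton_iff]
    ext i
    fin_cases i
    · show m 0 = m0 0 - 2 * y0 / cc * c0
      rw [hs'] at e0; linarith
    · show m 1 = m0 1 - 2 * y0 / cc * c1
      rw [hs'] at e1; linarith
    · show m 2 = m0 2 - 2 * y0 / cc * c2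
      rw [hs'] at e2; linarith

/-- any two vectors of space have a common nonzero normal -/
theorem exists_normal (a b : E3) : ∃ n : E3, n ≠ 0 ∧ ⟪n, a⟫_ℝ = 0 ∧ ⟪n, b⟫_ℝ = 0 := by
  by_cases ha : a = 0
  · by_cases hb : b = 0
    · refine ⟨!₂[1, 0, 0], ?_, by simp [ha], by simp [hb]⟩
      intro h
      have := congrArg (fun x : E3 => x 0) h
      simp at this
    · obtain ⟨c, d, hc, -, -, hbc, -, -⟩ := exists_frame b hb
      refine ⟨c, ?_, by simp [ha], by rw [real_inner_comm]; exact hbc⟩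
      rw [← norm_ne_zero_iff, hc]; norm_num
  · obtain ⟨c, d, hc, hd, hcd, hac, had, -⟩ := exists_frame a ha
    have hdc : ⟪d, c⟫_ℝ = 0 := by rw [real_inner_comm]; exact hcd
    have hca : ⟪c, a⟫_ℝ = 0 := by rw [real_inner_comm]; exact hac
    have hda : ⟪d, a⟫_ℝ = 0 := by rw [real_inner_comm]; exact had
    by_cases h0 : ⟪c, b⟫_ℝ = 0
    · refine ⟨c, ?_, by rw [real_inner_comm]; exact hac, h0⟩
      rw [← norm_ne_zero_iff, hc]; norm_num
    · refine ⟨⟪d, b⟫_ℝ • c - ⟪c, b⟫_ℝ • d, ?_, ?_, ?_⟩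
      · intro h
        have h2 : ⟪d, ⟪d, b⟫_ℝ • c - ⟪c, b⟫_ℝ • d⟫_ℝ = 0 := by rw [h]; simp
        have hdd : ⟪d, d⟫_ℝ = 1 := by rw [real_inner_self_eq_norm_sq, hd]; norm_num
        rw [inner_sub_right, inner_smul_right, inner_smul_right, hdc, hdd] at h2
        apply h0
        linarith
      · rw [inner_sub_left, inner_smul_left, inner_smul_left, hca, hda]
        simp
      · rw [inner_sub_left, inner_smul_left, inner_smul_left]
        simp only [RCLike.conj_to_real]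
        ring

/-- The new bar `u m` meets the segment `p q` at most in `u` as soon as `m` avoids a plane. -/
theorem segment_avoid {u p q m n : E3} (hp : ⟪n, p - u⟫_ℝ = 0) (hq : ⟪n, q - u⟫_ℝ = 0)
    (hm : ⟪n, m - u⟫_ℝ ≠ 0) {z : E3} (hz : z ∈ segment ℝ u m) (hz' : z ∈ segment ℝ p q) : z = u := by
  rw [segment_eq_image'] at hz
  obtain ⟨s, -, rfl⟩ := hz
  rw [segment_eq_image_lineMap] at hz'
  obtain ⟨t, -, ht⟩ := hz'
  have h1 : ⟪n, (u + s • (m - u)) - u⟫_ℝ = 0 := by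
    rw [show (fun θ : ℝ => u + θ • (m - u)) s = u + s • (m - u) from rfl] at ht
    rw [← ht, AffineMap.lineMap_apply]
    have : (t • (q -ᵥ p) +ᵥ p) - u = t • (q - u) + (1 - t) • (p - u) := by
      simp only [vsub_eq_sub, vadd_eq_add]
      module
    rw [this, inner_add_right, inner_smul_right, inner_smul_right, hp, hq]
    ring
  rw [add_sub_cancel_left, inner_smul_right] at h1
  rcases mul_eq_zero.1 h1 with h | h
  · simp [h]
  · exact absurd h hm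

/-- Choosing the middle vertex of a two-bar chain in general position with respect to finitely
many segments. -/
theorem exists_middle (u v : E3) (l1 l2 : ℝ) (h1 : 0 < l1) (h2 : 0 < l2)
    (hlo : |l1 - l2| < dist u v) (hhi : dist u v < l1 + l2)
    (hκ : l1 ^ 2 + dist u v ^ 2 - l2 ^ 2 ≠ 0) (hκ' : l2 ^ 2 + dist u v ^ 2 - l1 ^ 2 ≠ 0)
    (O : List (E3 × E3)) :
    ∃ m : E3, dist u m = l1 ∧ dist v m = l2 ∧
      (∀ o ∈ O, ∀ z, z ∈ segment ℝ u m → z ∈ segment ℝ o.1 o.2 → z = u) ∧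
      (∀ o ∈ O, ∀ z, z ∈ segment ℝ v m → z ∈ segment ℝ o.1 o.2 → z = v) := by
  classical
  choose nf hnf0 hnf1 hnf2 using exists_normal
  let bad : Set E3 := ⋃ o ∈ {o | o ∈ O}, ({m | m ∈ Circ u v l1 l2 ∧ ⟪nf (o.1 - u) (o.2 - u), m - u⟫_ℝ = 0} ∪
    {m | m ∈ Circ v u l2 l1 ∧ ⟪nf (o.1 - v) (o.2 - v), m - v⟫_ℝ = 0})
  have hbad : bad.Finite := by
    apply Set.Finite.biUnion (List.finite_toSet O)
    intro o _
    apply Set.Finite.union
    · exact circ_plane_finite u v l1 l2 hκ _ (hnf0 _ _)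
    · exact circ_plane_finite v u l2 l1 (by rw [dist_comm v u]; exact hκ') _ (hnf0 _ _)
  obtain ⟨m, hm, hmb⟩ := ((circ_infinite u v l1 l2 h1 h2 hlo hhi).sdiff hbad).nonempty
  refine ⟨m, hm.1, hm.2, ?_, ?_⟩
  · intro o ho z hz hz'
    refine segment_avoid (hnf1 (o.1 - u) (o.2 - u)) (hnf2 (o.1 - u) (o.2 - u)) ?_ hz hz'
    intro h
    exact hmb (Set.mem_biUnion (show o ∈ {o | o ∈ O} from ho) (Or.inl ⟨hm, h⟩))
  · intro o ho z hz hz'
    refine segment_avoid (hnf1 (o.1 - v) (o.2 - v)) (hnf2 (o.1 - v) (o.2 - v)) ?_ hz hz'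
    intro h
    exact hmb (Set.mem_biUnion (show o ∈ {o | o ∈ O} from ho) (Or.inr ⟨⟨hm.2, hm.1⟩, h⟩))

end Pool.Agent.Lib.MP_14e06f_lc
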