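import Mathlib
import Pool.Agent.Lib.MP_14e06f_lc.Geom
import Pool.Agent.Lib.MP_14e06f_lc.Defs

set_option autoImplicit false

namespace Pool.Agent.Lib.MP_14e06f_lc

open scoped InnerProductSpace

/-- Points on a circle, adjacent ones nearly at angle `2π/3` or more: the graph is 3-colourable. -/
theorem colorable_of_angles {n : ℕ} (H : SimpleGraph (Fin n)) (θ : Fin n → ℝ)
    (h : ∀ i j, H.Adj i j → Real.cos (θ i - θ j) ≤ -1 / 2 + 1 / (n + 1)) : H.Colorable 3 := by
  classical
  set N : ℕ := n + 1 with hN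
  have hNpos : (0 : ℝ) < N := by rw [hN]; positivity
  have hN0 : (N : ℝ) ≠ 0 := hNpos.ne'
  have hpi := Real.pi_pos
  -- normalised angles
  let y : Fin n → ℝ := fun i => θ i * (3 * N) / (2 * Real.pi)
  -- a good offset
  let f : Fin n → Fin N := fun i => ⟨((⌊y i⌋ + 1) % (N : ℤ)).toNat, by
    have h1 : 0 ≤ (⌊y i⌋ + 1) % (N : ℤ) := Int.emod_nonneg _ (by omega)
    have h2 : (⌊y i⌋ + 1) % (N : ℤ) < N := Int.emod_lt_of_pos _ (by omega)
    omega⟩
  obtain ⟨j, hj⟩ : ∃ j : Fin N, ∀ i, f i ≠ j := by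
    by_contra hcon
    push Not at hcon
    have := Fintype.card_le_of_surjective f hcon
    simp only [Fintype.card_fin] at this
    omega
  -- residues
  let c : Fin n → ℤ := fun i => ⌊(y i - j) / N⌋
  let r : Fin n → ℝ := fun i => y i - j - c i * N
  have hr0 : ∀ i, 0 ≤ r i := by
    intro i
    have := Int.floor_le ((y i - j) / N)
    rw [le_div_iff₀ hNpos] at this
    simp only [r, c]
    linarith
  have hr1 : ∀ i, r i < N - 1 := by
    intro i
    have h2 := Int.lt_floor_add_one ((y i - j) / N)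
    rw [div_lt_iff₀ hNpos] at h2
    by_contra hcon
    push Not at hcon
    -- then the floor of `y i` is `j + c N + (N-1)`
    have hfl : ⌊y i⌋ = j + c i * N + (N - 1) := by
      rw [Int.floor_eq_iff]
      push_cast
      simp only [r] at hcon
      constructor
      · linarith
      · simp only [c] at *
        linarith
    apply hj i
    ext
    simp only [f]
    rw [hfl]
    have : ((j : ℕ) : ℤ) + c i * N + (N - 1) + 1 = j + N * (c i + 1) := by ring
    rw [this, Int.add_mul_emod_self_left, Int.emod_eq_of_lt (by omega) (by have := j.2; omega)]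
    simp
  let col : H.Coloring (ZMod 3) := SimpleGraph.Coloring.mk (fun i => ((c i : ℤ) : ZMod 3)) (by
    intro u v huv heq
    rw [ZMod.intCast_eq_intCast_iff] at heq
    obtain ⟨t, ht⟩ := (Int.modEq_iff_dvd.1 heq)
    -- `c v - c u = 3 t`
    have hdiff : |r u - r v| < N - 1 := by
      rw [abs_lt]
      constructor
      · linarith [hr0 u, hr1 v]
      · linarith [hr1 u, hr0 v]
    have hyuv : θ u - θ v = (2 * Real.pi / (3 * N)) * (r u - r v) - t * (2 * Real.pi) := by
      have e1 : y u = r u + j + c u * N := by simp only [r]; ring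
      have e2 : y v = r v + j + c v * N := by simp only [r]; ring
      have e3 : (c v : ℝ) = c u + 3 * t := by
        have : c v = c u + 3 * t := by push_cast at ht; linarith
        rw [this]; push_cast; ring
      have e4 : θ u = y u * (2 * Real.pi) / (3 * N) := by simp only [y]; field_simp
      have e5 : θ v = y v * (2 * Real.pi) / (3 * N) := by simp only [y]; field_simp
      rw [e4, e5, e1, e2, e3]
      field_simp
      ring
    have hcos : Real.cos (θ u - θ v) = Real.cos |2 * Real.pi / (3 * N) * (r u - r v)| := by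
      rw [hyuv, Real.cos_abs, Real.cos_sub_int_mul_two_pi]
    have hang : |2 * Real.pi / (3 * N) * (r u - r v)| < 2 * Real.pi / 3 - 2 * Real.pi / (3 * N) := by
      rw [abs_mul, abs_of_pos (by positivity : (0 : ℝ) < 2 * Real.pi / (3 * N))]
      calc 2 * Real.pi / (3 * N) * |r u - r v| < 2 * Real.pi / (3 * N) * (N - 1) :=
            mul_lt_mul_of_pos_left hdiff (by positivity)
        _ = 2 * Real.pi / 3 - 2 * Real.pi / (3 * N) := by field_simp
    have hlt := Real.cos_lt_cos_of_nonneg_of_le_pi (abs_nonneg _) (by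
      have : 0 < 2 * Real.pi / (3 * N) := by positivity
      linarith : 2 * Real.pi / 3 - 2 * Real.pi / (3 * N) ≤ Real.pi) hang
    rw [← hcos] at hlt
    have hle := h u v huv
    -- lower bound for the cosine
    have hn1 : 1 ≤ n := by
      have := u.2
      omega
    have hN2 : (2 : ℝ) ≤ N := by
      rw [hN]; push_cast
      have : (1 : ℝ) ≤ n := by exact_mod_cast hn1
      linarith
    set s := 2 * Real.pi / (3 * N) with hs
    have hs0 : 0 < s := by positivity
    have hs1 : s ≤ Real.pi / 2 := by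
      rw [hs, div_le_div_iff₀ (by positivity) (by positivity)]
      nlinarith
    have hc1 : Real.cos (2 * Real.pi / 3 - s) = -1 / 2 * Real.cos s + Real.sqrt 3 / 2 * Real.sin s := by
      rw [Real.cos_sub]
      have e1 : Real.cos (2 * Real.pi / 3) = -1 / 2 := by
        have : 2 * Real.pi / 3 = Real.pi - Real.pi / 3 := by ring
        rw [this, Real.cos_pi_sub, Real.cos_pi_div_three]; norm_num
      have e2 : Real.sin (2 * Real.pi / 3) = Real.sqrt 3 / 2 := by
        have : 2 * Real.pi / 3 = Real.pi - Real.pi / 3 := by ring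
        rw [this, Real.sin_pi_sub, Real.sin_pi_div_three]
      rw [e1, e2]
    have hsin : 2 / Real.pi * s ≤ Real.sin s := Real.mul_le_sin hs0.le hs1
    have hsin' : 4 / (3 * N) ≤ Real.sin s := by
      have : 2 / Real.pi * s = 4 / (3 * N) := by rw [hs]; field_simp; norm_num
      linarith
    have hsq : (3 / 2 : ℝ) ≤ Real.sqrt 3 := by
      rw [show (3 / 2 : ℝ) = Real.sqrt ((3 / 2) ^ 2) by rw [Real.sqrt_sq (by norm_num)]]
      exact Real.sqrt_le_sqrt (by norm_num)
    have hcle : Real.cos s ≤ 1 := Real.cos_le_one s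
    have h4 : (0 : ℝ) < 4 / (3 * N) := by positivity
    have : 1 / (N : ℝ) ≤ Real.sqrt 3 / 2 * Real.sin s := by
      calc 1 / (N : ℝ) = 3 / 4 * (4 / (3 * N)) := by field_simp
        _ ≤ Real.sqrt 3 / 2 * Real.sin s := by
            apply mul_le_mul _ hsin' h4.le (by positivity)
            linarith
    have hN' : ((n : ℝ) + 1) = N := by rw [hN]; push_cast; ring
    rw [hN'] at hle
    rw [hc1] at hlt
    linarith)
  have := col.colorable
  rwa [ZMod.card] at this

/-- The vertices `v i` lie on a circle of radius `√3`. -/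
theorem exists_angles {n : ℕ} (A B : E3) (P : Fin n → E3) (hAB : dist A B = 2)
    (hA : ∀ i, dist A (P i) = 2) (hB : ∀ i, dist B (P i) = 2) :
    ∃ θ : Fin n → ℝ, ∀ i j, dist (P i) (P j) ^ 2 = 6 * (1 - Real.cos (θ i - θ j)) := by
  set w := B - A with hw
  have hwn : ‖w‖ = 2 := by rw [hw, ← dist_eq_norm, dist_comm]; exact hAB
  have hw0 : w ≠ 0 := by rw [← norm_ne_zero_iff, hwn]; norm_num
  obtain ⟨a, b, ha, hb, hab, hwa, hwb, hspan⟩ := exists_frame w hw0
  have hww : ⟪w, w⟫_ℝ = 4 := by rw [real_inner_self_eq_norm_sq, hwn]; norm_num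
  have hxx : ∀ i, ⟪P i - A, P i - A⟫_ℝ = 4 := by
    intro i
    rw [real_inner_self_eq_norm_sq, ← dist_eq_norm, dist_comm, hA]; norm_num
  have hxw : ∀ i, ⟪w, P i - A⟫_ℝ = 2 := by
    intro i
    have h1 : ⟪P i - B, P i - B⟫_ℝ = 4 := by
      rw [real_inner_self_eq_norm_sq, ← dist_eq_norm, dist_comm, hB]; norm_num
    have h2 : P i - B = (P i - A) - w := by rw [hw]; abel
    rw [h2, inner_sub_sub_self, hxx, hww, real_inner_comm] at h1
    have h3 : ⟪P i - A, w⟫_ℝ = ⟪w, P i - A⟫_ℝ := real_inner_comm _ _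
    rw [real_inner_comm] at h1
    linarith
  let y : Fin n → E3 := fun i => (P i - A) - (1 / 2 : ℝ) • w
  have hyw : ∀ i, ⟪w, y i⟫_ℝ = 0 := by
    intro i
    simp only [y]
    rw [inner_sub_right, inner_smul_right, hxw, hww]; norm_num
  have hyy : ∀ i, ⟪y i, y i⟫_ℝ = 3 := by
    intro i
    simp only [y]
    rw [inner_sub_sub_self, hxx, inner_smul_right, inner_smul_left, inner_smul_left, inner_smul_right,
      hww]
    have h3 : ⟪P i - A, w⟫_ℝ = 2 := by rw [real_inner_comm]; exact hxw i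
    rw [h3, hxw]
    simp only [RCLike.conj_to_real]
    norm_num
  have hcirc : ∀ i, ⟪a, y i⟫_ℝ ^ 2 + ⟪b, y i⟫_ℝ ^ 2 = 3 := by
    intro i
    have h1 := hyy i
    have haa : ⟪a, a⟫_ℝ = 1 := by rw [real_inner_self_eq_norm_sq, ha]; norm_num
    have hbb : ⟪b, b⟫_ℝ = 1 := by rw [real_inner_self_eq_norm_sq, hb]; norm_num
    have hba : ⟪b, a⟫_ℝ = 0 := by rw [real_inner_comm]; exact hab
    have h2 := hspan (y i) (hyw i)
    have h3 : ⟪y i, y i⟫_ℝ = ⟪⟪a, y i⟫_ℝ • a + ⟪b, y i⟫_ℝ • b, ⟪a, y i⟫_ℝ • a + ⟪b, y i⟫_ℝ • b⟫_ℝ := by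
      rw [← h2]
    rw [h1] at h3
    simp only [inner_add_left, inner_add_right, inner_smul_left, inner_smul_right, haa, hbb, hab, hba,
      RCLike.conj_to_real] at h3
    nlinarith
  have hθ : ∀ i, ∃ θ : ℝ, ⟪a, y i⟫_ℝ = Real.sqrt 3 * Real.cos θ ∧ ⟪b, y i⟫_ℝ = Real.sqrt 3 * Real.sin θ := by
    intro i
    have h3 : (0 : ℝ) < Real.sqrt 3 := Real.sqrt_pos.2 (by norm_num)
    have h33 : Real.sqrt 3 ^ 2 = 3 := Real.sq_sqrt (by norm_num)
    let z : ℂ := ⟨⟪a, y i⟫_ℝ / Real.sqrt 3, ⟪b, y i⟫_ℝ / Real.sqrt 3⟩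
    have hz : ‖z‖ = 1 := by
      rw [Complex.norm_eq_sqrt_sq_add_sq]
      have : z.re ^ 2 + z.im ^ 2 = 1 := by
        show (⟪a, y i⟫_ℝ / Real.sqrt 3) ^ 2 + (⟪b, y i⟫_ℝ / Real.sqrt 3) ^ 2 = 1
        rw [div_pow, div_pow, ← add_div, hcirc i, h33]; norm_num
      rw [this, Real.sqrt_one]
    have hz0 : z ≠ 0 := by rw [← norm_ne_zero_iff, hz]; norm_num
    refine ⟨Complex.arg z, ?_, ?_⟩
    · rw [Complex.cos_arg hz0, hz]
      show ⟪a, y i⟫_ℝ = Real.sqrt 3 * (⟪a, y i⟫_ℝ / Real.sqrt 3 / 1)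
      field_simp
    · rw [Complex.sin_arg, hz]
      show ⟪b, y i⟫_ℝ = Real.sqrt 3 * (⟪b, y i⟫_ℝ / Real.sqrt 3 / 1)
      field_simp
  choose θ hθa hθb using hθ
  refine ⟨θ, ?_⟩
  intro i j
  have h33 : Real.sqrt 3 ^ 2 = 3 := Real.sq_sqrt (by norm_num)
  have haa : ⟪a, a⟫_ℝ = 1 := by rw [real_inner_self_eq_norm_sq, ha]; norm_num
  have hbb : ⟪b, b⟫_ℝ = 1 := by rw [real_inner_self_eq_norm_sq, hb]; norm_num
  have hba : ⟪b, a⟫_ℝ = 0 := by rw [real_inner_comm]; exact hab
  have hyi := hspan (y i) (hyw i)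
  have hyj := hspan (y j) (hyw j)
  have hd : P i - P j = y i - y j := by simp only [y]; abel
  have hdd : y i - y j = (⟪a, y i⟫_ℝ - ⟪a, y j⟫_ℝ) • a + (⟪b, y i⟫_ℝ - ⟪b, y j⟫_ℝ) • b := by
    conv_lhs => rw [hyi, hyj]
    module
  rw [dist_eq_norm, ← real_inner_self_eq_norm_sq, hd, hdd]
  simp only [inner_add_left, inner_add_right, inner_smul_left, inner_smul_right, haa, hbb, hab, hba,
      RCLike.conj_to_real]
  rw [hθa, hθa, hθb, hθb, Real.cos_sub]
  have e1 := Real.sin_sq_add_cos_sq (θ i)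
  have e2 := Real.sin_sq_add_cos_sq (θ j)
  linear_combination (Real.sqrt 3 ^ 2) * e1 + (Real.sqrt 3 ^ 2) * e2 +
    (2 - 2 * (Real.cos (θ i) * Real.cos (θ j) + Real.sin (θ i) * Real.sin (θ j))) * h33

/-- If the linkage of `H` has a configuration then `H` is 3-colourable. -/
theorem colorable_of_config {n : ℕ} (H : SimpleGraph (Fin n)) (p : Vx H → E3)
    (hp : (linkageOf H).IsConfig p) : H.Colorable 3 := by
  rw [isConfig_iff] at hp
  obtain ⟨hd, -⟩ := hp
  have hAB : dist (p .a) (p .b) = 2 := by simpa using hd _ _ _ (Bar.ab)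
  have hA : ∀ i, dist (p .a) (p (.v i)) = 2 := fun i => by simpa using hd _ _ _ (Bar.av i)
  have hB : ∀ i, dist (p .b) (p (.v i)) = 2 := fun i => by simpa using hd _ _ _ (Bar.bv i)
  obtain ⟨θ, hθ⟩ := exists_angles (p .a) (p .b) (fun i => p (.v i)) hAB hA hB
  -- adjacent vertices are far apart
  have hfar : ∀ i j, i < j → H.Adj i j → 3 - 1 / ((n : ℝ) + 1) ≤ dist (p (.v i)) (p (.v j)) := by
    intro i j hij h
    have h1 : dist (p (.v i)) (p (.m i j hij h)) = 10 := by simpa using hd _ _ _ (Bar.vm i j hij h)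
    have h2 : dist (p (.v j)) (p (.m i j hij h)) = 7 + 1 / ((n : ℝ) + 1) := by
      have := hd _ _ _ (Bar.wm i j hij h)
      rw [this]; push_cast; ring
    have h3 := dist_triangle (p (.v i)) (p (.v j)) (p (.m i j hij h))
    linarith
  have hfar' : ∀ i j, H.Adj i j → 3 - 1 / ((n : ℝ) + 1) ≤ dist (p (.v i)) (p (.v j)) := by
    intro i j h
    rcases lt_trichotomy i j with hij | hij | hij
    · exact hfar i j hij h
    · exact absurd (hij ▸ h) (H.irrefl)
    · rw [dist_comm]
      exact hfar j i hij h.symm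
  refine colorable_of_angles H θ ?_
  intro i j hij
  have h1 := hfar' i j hij
  have h2 := hθ i j
  have hδ0 : 0 < 1 / ((n : ℝ) + 1) := by positivity
  have hδ1 : 1 / ((n : ℝ) + 1) ≤ 1 := by
    rw [div_le_one (by positivity)]
    have : (0 : ℝ) ≤ n := Nat.cast_nonneg n
    linarith
  set δ := 1 / ((n : ℝ) + 1) with hδ
  have h3 : (3 - δ) ^ 2 ≤ dist (p (.v i)) (p (.v j)) ^ 2 := by
    apply pow_le_pow_left₀ (by linarith) h1
  rw [h2] at h3
  nlinarith

end Pool.Agent.Lib.MP_14e06f_lc
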