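import Mathlib
import Pool.Agent.Lib.MP_14e06f_lc.NoCase

set_option autoImplicit false

namespace Pool.Agent.Lib.MP_14e06f_lc

open scoped InnerProductSpace

/-! ### Generic choice of all middle vertices -/

theorem exists_family {E : Type} (u v : E → E3) (l1 l2 : ℝ) (h1 : 0 < l1) (h2 : 0 < l2)
    (hlo : ∀ e, |l1 - l2| < dist (u e) (v e)) (hhi : ∀ e, dist (u e) (v e) < l1 + l2)
    (hκ : ∀ e, l1 ^ 2 + dist (u e) (v e) ^ 2 - l2 ^ 2 ≠ 0)
    (hκ' : ∀ e, l2 ^ 2 + dist (u e) (v e) ^ 2 - l1 ^ 2 ≠ 0) (O : List (E3 × E3))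
    (hOu : ∀ e, ∃ o ∈ O, u e ∈ segment ℝ o.1 o.2) (hOv : ∀ e, ∃ o ∈ O, v e ∈ segment ℝ o.1 o.2) :
    ∀ l : List E, l.Nodup → ∃ M : E → E3,
      (∀ e ∈ l, dist (u e) (M e) = l1 ∧ dist (v e) (M e) = l2 ∧
        ∀ s, (s = u e ∨ s = v e) → ∀ o ∈ O, ∀ z, z ∈ segment ℝ s (M e) →
          z ∈ segment ℝ o.1 o.2 → z = s) ∧
      (∀ e ∈ l, ∀ e' ∈ l, e ≠ e' → ∀ s, (s = u e ∨ s = v e) → ∀ s', (s' = u e' ∨ s' = v e') →
        ∀ z, z ∈ segment ℝ s (M e) → z ∈ segment ℝ s' (M e') → z = s ∧ z = s') := by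
  classical
  intro l
  induction l with
  | nil => exact fun _ => ⟨fun _ => 0, by simp, by simp⟩
  | cons e l ih =>
    intro hnd
    obtain ⟨hel, hl⟩ := List.nodup_cons.1 hnd
    obtain ⟨M, hM1, hM2⟩ := ih hl
    obtain ⟨m, hm1, hm2, hm3, hm4⟩ := exists_middle (u e) (v e) l1 l2 h1 h2 (hlo e) (hhi e) (hκ e)
      (hκ' e) (O ++ l.flatMap fun e' => [(u e', M e'), (v e', M e')])
    have hself : Function.update M e m e = m := Function.update_self ..
    have hother : ∀ e' ∈ l, Function.update M e m e' = M e' := by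
      intro e' he'
      exact Function.update_of_ne (fun h => hel (by rw [← h]; exact he')) _ _
    -- the new bars against the old ones
    have hnew : ∀ e' ∈ l, ∀ s, (s = u e ∨ s = v e) → ∀ s', (s' = u e' ∨ s' = v e') →
        ∀ z, z ∈ segment ℝ s m → z ∈ segment ℝ s' (M e') → z = s ∧ z = s' := by
      intro e' he' s hs s' hs' z hz hz'
      have hmem : (s', M e') ∈ O ++ l.flatMap fun e' => [(u e', M e'), (v e', M e')] := by
        apply List.mem_append_right
        rw [List.mem_flatMap]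
        refine ⟨e', he', ?_⟩
        rcases hs' with rfl | rfl <;> simp
      have hzs : z = s := by
        rcases hs with rfl | rfl
        · exact hm3 _ hmem z hz hz'
        · exact hm4 _ hmem z hz hz'
      refine ⟨hzs, ?_⟩
      have hsO : ∃ o ∈ O, s ∈ segment ℝ o.1 o.2 := by
        rcases hs with rfl | rfl
        · exact hOu e
        · exact hOv e
      obtain ⟨o, ho, hso⟩ := hsO
      exact (hM1 e' he').2.2 s' hs' o ho z hz' (by rw [hzs]; exact hso)
    refine ⟨Function.update M e m, ?_, ?_⟩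
    · intro e' he'
      rcases List.mem_cons.1 he' with rfl | he'
      · rw [hself]
        refine ⟨hm1, hm2, ?_⟩
        intro s hs o ho z hz hz'
        rcases hs with rfl | rfl
        · exact hm3 o (List.mem_append_left _ ho) z hz hz'
        · exact hm4 o (List.mem_append_left _ ho) z hz hz'
      · rw [hother e' he']
        exact hM1 e' he'
    · intro e1 he1 e2 he2 hne
      rcases List.mem_cons.1 he1 with h1' | h1' <;> rcases List.mem_cons.1 he2 with h2' | h2'
      · exact absurd (h1'.trans h2'.symm) hne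
      · subst h1'
        rw [hself, hother e2 h2']
        exact hnew e2 h2'
      · subst h2'
        rw [hself, hother e1 h1']
        intro s hs s' hs' z hz hz'
        exact (hnew e1 h1' s' hs' s hs z hz' hz).symm
      · rw [hother e1 h1', hother e2 h2']
        exact hM2 e1 h1' e2 h2' hne

/-- the two bars of a chain meet only in the middle vertex -/
theorem chain_meet {u v m : E3} {l1 l2 : ℝ} (h1 : dist u m = l1) (h2 : dist v m = l2)
    (hlo : |l1 - l2| < dist u v) {z : E3} (hz : z ∈ segment ℝ u m) (hz' : z ∈ segment ℝ v m) :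
    z = m := by
  rw [segment_eq_image_lineMap] at hz hz'
  obtain ⟨s, ⟨hs0, hs1⟩, hs⟩ := hz
  obtain ⟨t, ⟨ht0, ht1⟩, ht⟩ := hz'
  simp only [AffineMap.lineMap_apply, vsub_eq_sub, vadd_eq_add] at hs ht
  by_cases hs' : s = 1
  · rw [← hs, hs']; simp
  · exfalso
    have hs2 : 0 < 1 - s := by
      rcases lt_or_eq_of_le hs1 with h | h
      · linarith
      · exact absurd h hs'
    have e1 : (1 - s) • (u - m) = (1 - t) • (v - m) := by
      have : s • (m - u) + u = t • (m - v) + v := by rw [hs, ht]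
      have e : (1 - s) • (u - m) - (1 - t) • (v - m) = (s • (m - u) + u) - (t • (m - v) + v) := by
        module
      rw [this, sub_self] at e
      exact sub_eq_zero.1 e
    set c := (1 - t) / (1 - s) with hc
    have hc0 : 0 ≤ c := div_nonneg (by linarith) hs2.le
    have e2 : u - m = c • (v - m) := by
      have : (1 - s) • (u - m) = (1 - s) • (c • (v - m)) := by
        rw [e1, smul_smul, hc]
        congr 1
        field_simp
      exact smul_right_injective E3 hs2.ne' this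
    have e3 : l1 = c * l2 := by
      rw [← h1, ← h2, dist_eq_norm, dist_eq_norm, e2, norm_smul, Real.norm_of_nonneg hc0]
    have e4 : dist u v = |l1 - l2| := by
      have : u - v = (c - 1) • (v - m) := by
        have : u - v = (u - m) - (v - m) := by abel
        rw [this, e2]
        module
      rw [dist_eq_norm, this, norm_smul, Real.norm_eq_abs, e3, ← dist_eq_norm, h2]
      have hl2 : 0 ≤ l2 := by rw [← h2]; exact dist_nonneg
      rw [show c * l2 - l2 = (c - 1) * l2 by ring, abs_mul, abs_of_nonneg hl2]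
    linarith

/-! ### Static positions -/

theorem E3_ext {z w : E3} (h0 : z 0 = w 0) (h1 : z 1 = w 1) (h2 : z 2 = w 2) : z = w := by
  ext i
  fin_cases i
  · exact h0
  · exact h1
  · exact h2

theorem mem_seg {p q z : E3} (h : z ∈ segment ℝ p q) :
    ∃ s : ℝ, 0 ≤ s ∧ s ≤ 1 ∧ ∀ k, z k = p k + s * (q k - p k) := by
  rw [segment_eq_image_lineMap] at h
  obtain ⟨s, ⟨h0, h1⟩, rfl⟩ := h
  refine ⟨s, h0, h1, ?_⟩
  intro k
  simp [AffineMap.lineMap_apply]
  ring

/-- height of the tetrahedron -/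
noncomputable def hT : ℝ := Real.sqrt (2 / 3)

theorem hT_pos : 0 < hT := Real.sqrt_pos.2 (by norm_num)

theorem hT_sq : hT ^ 2 = 2 / 3 := Real.sq_sqrt (by norm_num)

noncomputable def XT : Fin 3 → ℝ := ![Real.sqrt 3 / 3, -(Real.sqrt 3 / 6), -(Real.sqrt 3 / 6)]

noncomputable def YT : Fin 3 → ℝ := ![0, 1 / 2, -(1 / 2)]

theorem sqrt3_pos : 0 < Real.sqrt 3 := Real.sqrt_pos.2 (by norm_num)

theorem sqrt3_sq : Real.sqrt 3 ^ 2 = 3 := Real.sq_sqrt (by norm_num)

section Static

variable {n : ℕ} {H : SimpleGraph (Fin n)} (x y : Fin n → ℝ) (M : Fin n → Fin n → E3)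

/-- positions of all vertices, given those of the middle vertices -/
noncomputable def pos : Vx H → E3
  | .a => !₂[0, 0, 1]
  | .b => !₂[0, 0, -1]
  | .v i => !₂[x i, y i, 0]
  | .m i j _ _ => M i j
  | .t k => !₂[XT k, YT k, 1 + hT]

/-- static bars -/
inductive SBar : Vx H → Vx H → Prop
  | ab : SBar .a .b
  | av (i : Fin n) : SBar .a (.v i)
  | bv (i : Fin n) : SBar .b (.v i)
  | at (k : Fin 3) : SBar .a (.t k)
  | tt (k l : Fin 3) (hkl : k < l) : SBar (.t k) (.t l)

variable {x y M}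

theorem seg_ab {z : E3} (h : z ∈ segment ℝ (pos (H := H) x y M .a) (pos (H := H) x y M .b)) :
    ∃ s : ℝ, 0 ≤ s ∧ s ≤ 1 ∧ z 0 = 0 ∧ z 1 = 0 ∧ z 2 = 1 - 2 * s := by
  obtain ⟨s, h0, h1, h⟩ := mem_seg h
  have a0 := h 0
  have a1 := h 1
  have a2 := h 2
  simp [pos] at a0 a1 a2
  exact ⟨s, h0, h1, a0, a1, by linarith⟩

theorem seg_av {i : Fin n} {z : E3}
    (h : z ∈ segment ℝ (pos (H := H) x y M .a) (pos (H := H) x y M (.v i))) :
    ∃ s : ℝ, 0 ≤ s ∧ s ≤ 1 ∧ z 0 = s * x i ∧ z 1 = s * y i ∧ z 2 = 1 - s := by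
  obtain ⟨s, h0, h1, h⟩ := mem_seg h
  have a0 := h 0
  have a1 := h 1
  have a2 := h 2
  simp [pos] at a0 a1 a2
  exact ⟨s, h0, h1, a0, a1, by linarith⟩

theorem seg_bv {i : Fin n} {z : E3}
    (h : z ∈ segment ℝ (pos (H := H) x y M .b) (pos (H := H) x y M (.v i))) :
    ∃ s : ℝ, 0 ≤ s ∧ s ≤ 1 ∧ z 0 = s * x i ∧ z 1 = s * y i ∧ z 2 = s - 1 := by
  obtain ⟨s, h0, h1, h⟩ := mem_seg h
  have a0 := h 0
  have a1 := h 1
  have a2 := h 2
  simp [pos] at a0 a1 a2
  exact ⟨s, h0, h1, a0, a1, by linarith⟩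

theorem seg_at {k : Fin 3} {z : E3}
    (h : z ∈ segment ℝ (pos (H := H) x y M .a) (pos (H := H) x y M (.t k))) :
    ∃ s : ℝ, 0 ≤ s ∧ s ≤ 1 ∧ z 0 = s * XT k ∧ z 1 = s * YT k ∧ z 2 = 1 + s * hT := by
  obtain ⟨s, h0, h1, h⟩ := mem_seg h
  have a0 := h 0
  have a1 := h 1
  have a2 := h 2
  simp [pos] at a0 a1 a2
  exact ⟨s, h0, h1, a0, a1, by linarith⟩

theorem seg_tt {k l : Fin 3} {z : E3}
    (h : z ∈ segment ℝ (pos (H := H) x y M (.t k)) (pos (H := H) x y M (.t l))) :
    ∃ s : ℝ, 0 ≤ s ∧ s ≤ 1 ∧ z 0 = XT k + s * (XT l - XT k) ∧ z 1 = YT k + s * (YT l - YT k) ∧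
      z 2 = 1 + hT := by
  obtain ⟨s, h0, h1, h⟩ := mem_seg h
  have a0 := h 0
  have a1 := h 1
  have a2 := h 2
  simp [pos] at a0 a1 a2
  exact ⟨s, h0, h1, a0, a1, a2⟩

theorem XT_YT_inj {k l : Fin 3} (h1 : XT k = XT l) (h2 : YT k = YT l) : k = l := by
  have := sqrt3_pos
  fin_cases k <;> fin_cases l <;> simp [XT, YT] at h1 h2 ⊢ <;> linarith

/-- the vertex `a` -/
theorem eq_pos_a {z : E3} (h0 : z 0 = 0) (h1 : z 1 = 0) (h2 : z 2 = 1) :
    z = pos (H := H) x y M .a := E3_ext h0 h1 h2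

theorem eq_pos_b {z : E3} (h0 : z 0 = 0) (h1 : z 1 = 0) (h2 : z 2 = -1) :
    z = pos (H := H) x y M .b := E3_ext h0 h1 h2

theorem eq_pos_v {z : E3} {i : Fin n} (h0 : z 0 = x i) (h1 : z 1 = y i) (h2 : z 2 = 0) :
    z = pos (H := H) x y M (.v i) := E3_ext h0 h1 h2

theorem eq_pos_t {z : E3} {k : Fin 3} (h0 : z 0 = XT k) (h1 : z 1 = YT k) (h2 : z 2 = 1 + hT) :
    z = pos (H := H) x y M (.t k) := E3_ext h0 h1 h2

/-- the edges of the horizontal triangle of the tetrahedron -/
theorem tt_tt {k l k' l' : Fin 3} (hkl : k < l) (hkl' : k' < l') (hne : (k, l) ≠ (k', l')) {z : E3}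
    (h : z ∈ segment ℝ (pos (H := H) x y M (.t k)) (pos (H := H) x y M (.t l)))
    (h' : z ∈ segment ℝ (pos (H := H) x y M (.t k')) (pos (H := H) x y M (.t l'))) :
    ∃ j, (j = k ∨ j = l) ∧ (j = k' ∨ j = l') ∧ z = pos (H := H) x y M (.t j) := by
  obtain ⟨s, s0, s1, a0, a1, a2⟩ := seg_tt h
  obtain ⟨t, t0, t1, b0, b1, b2⟩ := seg_tt h'
  have h3 := sqrt3_pos
  have e0 := a0.symm.trans b0
  have e1 := a1.symm.trans b1
  -- the common vertex
  have fin : ∀ j, (j = k ∨ j = l) ∧ (j = k' ∨ j = l') → z 0 = XT j → z 1 = YT j →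
      ∃ j, (j = k ∨ j = l) ∧ (j = k' ∨ j = l') ∧ z = pos (H := H) x y M (.t j) :=
    fun j hj hx hy => ⟨j, hj.1, hj.2, eq_pos_t hx hy a2⟩
  fin_cases k <;> fin_cases l <;> simp at hkl <;>
    fin_cases k' <;> fin_cases l' <;> simp at hkl' hne <;>
    simp [XT, YT] at a0 a1 b0 b1 e0 e1
  · -- 01, 02: common 0
    apply fin 0 (by simp)
    · have : s = 0 := by nlinarith
      subst this; simp [XT, a0]
    · have : s = 0 := by nlinarith
      subst this; simp [YT, a1]
  · -- 01, 12: common 1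
    apply fin 1 (by simp)
    · simp [XT, b0]
    · have : s = 1 := by nlinarith
      subst this; simp [YT]; linarith
  · -- 02, 01
    apply fin 0 (by simp)
    · have : s = 0 := by nlinarith
      subst this; simp [XT, a0]
    · have : s = 0 := by nlinarith
      subst this; simp [YT, a1]
  · -- 02, 12
    apply fin 2 (by simp)
    · simp [XT, b0]
    · have : s = 1 := by nlinarith
      subst this; simp [YT]; linarith
  · -- 12, 01
    apply fin 1 (by simp)
    · simp [XT, a0]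
    · have : t = 1 := by nlinarith
      subst this; simp [YT]; linarith
  · -- 12, 02
    apply fin 2 (by simp)
    · simp [XT, a0]
    · have : t = 1 := by nlinarith
      subst this; simp [YT]; linarith

theorem t_mem_tt {j k l : Fin 3} (hkl : k < l)
    (h : pos (H := H) x y M (.t j) ∈ segment ℝ (pos (H := H) x y M (.t k)) (pos (H := H) x y M (.t l))) :
    j = k ∨ j = l := by
  obtain ⟨s, s0, s1, a0, a1, a2⟩ := seg_tt h
  have h3 := sqrt3_pos
  simp only [pos] at a0 a1
  fin_cases j <;> fin_cases k <;> fin_cases l <;> simp at hkl ⊢ <;> simp [XT, YT] at a0 a1 <;>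
    nlinarith

variable (hxy : ∀ i, x i ^ 2 + y i ^ 2 = 3) (hinj : ∀ i j, x i = x j → y i = y j → i = j)

include hxy in
theorem scale_zero {s : ℝ} {i : Fin n} (h0 : s * x i = 0) (h1 : s * y i = 0) : s = 0 := by
  have h := hxy i
  have : s * 3 = 0 := by
    rw [← h]
    linear_combination (x i) * h0 + (y i) * h1
  linarith

include hxy hinj in
/-- static bars meet only in shared endpoints -/
theorem static_cross {u v u' v' : Vx H} (hb : SBar u v) (hb' : SBar u' v') (hne : (u, v) ≠ (u', v'))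
    {z : E3} (hz : z ∈ segment ℝ (pos (H := H) x y M u) (pos (H := H) x y M v))
    (hz' : z ∈ segment ℝ (pos (H := H) x y M u') (pos (H := H) x y M v')) :
    ∃ w, (w = u ∨ w = v) ∧ (w = u' ∨ w = v') ∧ z = pos (H := H) x y M w := by
  have hpos := hT_pos
  -- unordered statements
  have ab_av : ∀ i, z ∈ segment ℝ (pos (H := H) x y M .a) (pos (H := H) x y M .b) →
      z ∈ segment ℝ (pos (H := H) x y M .a) (pos (H := H) x y M (.v i)) →
      z = pos (H := H) x y M .a := by
    intro i h h'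
    obtain ⟨s, s0, s1, a0, a1, a2⟩ := seg_ab h
    obtain ⟨t, t0, t1, b0, b1, b2⟩ := seg_av h'
    have ht : t = 0 := scale_zero hxy (b0.symm.trans a0) (b1.symm.trans a1)
    exact eq_pos_a a0 a1 (by rw [b2, ht]; ring)
  have ab_bv : ∀ i, z ∈ segment ℝ (pos (H := H) x y M .a) (pos (H := H) x y M .b) →
      z ∈ segment ℝ (pos (H := H) x y M .b) (pos (H := H) x y M (.v i)) →
      z = pos (H := H) x y M .b := by
    intro i h h'
    obtain ⟨s, s0, s1, a0, a1, a2⟩ := seg_ab h
    obtain ⟨t, t0, t1, b0, b1, b2⟩ := seg_bv h'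
    have ht : t = 0 := scale_zero hxy (b0.symm.trans a0) (b1.symm.trans a1)
    exact eq_pos_b a0 a1 (by rw [b2, ht]; ring)
  have ab_at : ∀ k, z ∈ segment ℝ (pos (H := H) x y M .a) (pos (H := H) x y M .b) →
      z ∈ segment ℝ (pos (H := H) x y M .a) (pos (H := H) x y M (.t k)) →
      z = pos (H := H) x y M .a := by
    intro k h h'
    obtain ⟨s, s0, s1, a0, a1, a2⟩ := seg_ab h
    obtain ⟨t, t0, t1, b0, b1, b2⟩ := seg_at h'
    have : 0 ≤ t * hT := by positivity
    exact eq_pos_a a0 a1 (by linarith)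
  have ab_tt : ∀ k l, z ∈ segment ℝ (pos (H := H) x y M .a) (pos (H := H) x y M .b) →
      z ∈ segment ℝ (pos (H := H) x y M (.t k)) (pos (H := H) x y M (.t l)) → False := by
    intro k l h h'
    obtain ⟨s, s0, s1, a0, a1, a2⟩ := seg_ab h
    obtain ⟨t, t0, t1, b0, b1, b2⟩ := seg_tt h'
    linarith
  have av_av : ∀ i j, i ≠ j → z ∈ segment ℝ (pos (H := H) x y M .a) (pos (H := H) x y M (.v i)) →
      z ∈ segment ℝ (pos (H := H) x y M .a) (pos (H := H) x y M (.v j)) →
      z = pos (H := H) x y M .a := by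
    intro i j hij h h'
    obtain ⟨s, s0, s1, a0, a1, a2⟩ := seg_av h
    obtain ⟨t, t0, t1, b0, b1, b2⟩ := seg_av h'
    have hst : s = t := by linarith
    subst hst
    by_cases hs : s = 0
    · subst hs
      exact eq_pos_a (by rw [a0]; ring) (by rw [a1]; ring) (by rw [a2]; ring)
    · exact absurd (hinj i j (mul_left_cancel₀ hs (a0.symm.trans b0))
        (mul_left_cancel₀ hs (a1.symm.trans b1))) hij
  have bv_bv : ∀ i j, i ≠ j → z ∈ segment ℝ (pos (H := H) x y M .b) (pos (H := H) x y M (.v i)) →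
      z ∈ segment ℝ (pos (H := H) x y M .b) (pos (H := H) x y M (.v j)) →
      z = pos (H := H) x y M .b := by
    intro i j hij h h'
    obtain ⟨s, s0, s1, a0, a1, a2⟩ := seg_bv h
    obtain ⟨t, t0, t1, b0, b1, b2⟩ := seg_bv h'
    have hst : s = t := by linarith
    subst hst
    by_cases hs : s = 0
    · subst hs
      exact eq_pos_b (by rw [a0]; ring) (by rw [a1]; ring) (by rw [a2]; ring)
    · exact absurd (hinj i j (mul_left_cancel₀ hs (a0.symm.trans b0))
        (mul_left_cancel₀ hs (a1.symm.trans b1))) hij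
  have av_bv : ∀ i j, z ∈ segment ℝ (pos (H := H) x y M .a) (pos (H := H) x y M (.v i)) →
      z ∈ segment ℝ (pos (H := H) x y M .b) (pos (H := H) x y M (.v j)) →
      i = j ∧ z = pos (H := H) x y M (.v i) := by
    intro i j h h'
    obtain ⟨s, s0, s1, a0, a1, a2⟩ := seg_av h
    obtain ⟨t, t0, t1, b0, b1, b2⟩ := seg_bv h'
    have hs : s = 1 := by linarith
    have ht : t = 1 := by linarith
    subst hs ht
    rw [one_mul] at a0 a1 b0 b1
    exact ⟨hinj i j (a0.symm.trans b0) (a1.symm.trans b1), eq_pos_v a0 a1 (by rw [a2]; ring)⟩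
  have av_at : ∀ i k, z ∈ segment ℝ (pos (H := H) x y M .a) (pos (H := H) x y M (.v i)) →
      z ∈ segment ℝ (pos (H := H) x y M .a) (pos (H := H) x y M (.t k)) →
      z = pos (H := H) x y M .a := by
    intro i k h h'
    obtain ⟨s, s0, s1, a0, a1, a2⟩ := seg_av h
    obtain ⟨t, t0, t1, b0, b1, b2⟩ := seg_at h'
    have : 0 ≤ t * hT := by positivity
    have hs : s = 0 := by linarith
    subst hs
    exact eq_pos_a (by rw [a0]; ring) (by rw [a1]; ring) (by rw [a2]; ring)
  have av_tt : ∀ i k l, z ∈ segment ℝ (pos (H := H) x y M .a) (pos (H := H) x y M (.v i)) →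
      z ∈ segment ℝ (pos (H := H) x y M (.t k)) (pos (H := H) x y M (.t l)) → False := by
    intro i k l h h'
    obtain ⟨s, s0, s1, a0, a1, a2⟩ := seg_av h
    obtain ⟨t, t0, t1, b0, b1, b2⟩ := seg_tt h'
    linarith
  have bv_at : ∀ i k, z ∈ segment ℝ (pos (H := H) x y M .b) (pos (H := H) x y M (.v i)) →
      z ∈ segment ℝ (pos (H := H) x y M .a) (pos (H := H) x y M (.t k)) → False := by
    intro i k h h'
    obtain ⟨s, s0, s1, a0, a1, a2⟩ := seg_bv h
    obtain ⟨t, t0, t1, b0, b1, b2⟩ := seg_at h'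
    have : 0 ≤ t * hT := by positivity
    linarith
  have bv_tt : ∀ i k l, z ∈ segment ℝ (pos (H := H) x y M .b) (pos (H := H) x y M (.v i)) →
      z ∈ segment ℝ (pos (H := H) x y M (.t k)) (pos (H := H) x y M (.t l)) → False := by
    intro i k l h h'
    obtain ⟨s, s0, s1, a0, a1, a2⟩ := seg_bv h
    obtain ⟨t, t0, t1, b0, b1, b2⟩ := seg_tt h'
    linarith
  have at_at : ∀ k l, k ≠ l → z ∈ segment ℝ (pos (H := H) x y M .a) (pos (H := H) x y M (.t k)) →
      z ∈ segment ℝ (pos (H := H) x y M .a) (pos (H := H) x y M (.t l)) →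
      z = pos (H := H) x y M .a := by
    intro k l hkl h h'
    obtain ⟨s, s0, s1, a0, a1, a2⟩ := seg_at h
    obtain ⟨t, t0, t1, b0, b1, b2⟩ := seg_at h'
    have hst : s = t := by
      have : s * hT = t * hT := by linarith
      exact mul_right_cancel₀ hpos.ne' this
    subst hst
    by_cases hs : s = 0
    · subst hs
      exact eq_pos_a (by rw [a0]; ring) (by rw [a1]; ring) (by rw [a2]; ring)
    · exact absurd (XT_YT_inj (mul_left_cancel₀ hs (a0.symm.trans b0))
        (mul_left_cancel₀ hs (a1.symm.trans b1))) hkl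
  have at_tt : ∀ j k l, k < l → z ∈ segment ℝ (pos (H := H) x y M .a) (pos (H := H) x y M (.t j)) →
      z ∈ segment ℝ (pos (H := H) x y M (.t k)) (pos (H := H) x y M (.t l)) →
      (j = k ∨ j = l) ∧ z = pos (H := H) x y M (.t j) := by
    intro j k l hkl h h'
    obtain ⟨s, s0, s1, a0, a1, a2⟩ := seg_at h
    obtain ⟨t, t0, t1, b0, b1, b2⟩ := seg_tt h'
    have hs : s = 1 := by
      have : s * hT = 1 * hT := by linarith
      exact mul_right_cancel₀ hpos.ne' this
    subst hs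
    rw [one_mul] at a0 a1 a2
    have hz : z = pos (H := H) x y M (.t j) := eq_pos_t a0 a1 a2
    exact ⟨t_mem_tt hkl (hz ▸ h'), hz⟩
  cases hb <;> cases hb'
  · exact absurd rfl hne
  · exact ⟨.a, by simp, by simp, ab_av _ hz hz'⟩
  · exact ⟨.b, by simp, by simp, ab_bv _ hz hz'⟩
  · exact ⟨.a, by simp, by simp, ab_at _ hz hz'⟩
  · exact absurd (ab_tt _ _ hz hz') (fun h => h)
  -- av
  · exact ⟨.a, by simp, by simp, ab_av _ hz' hz⟩
  · rename_i i j
    exact ⟨.a, by simp, by simp, av_av i j (fun h => hne (by rw [h])) hz hz'⟩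
  · rename_i i j
    obtain ⟨h1, h2⟩ := av_bv i j hz hz'
    exact ⟨.v i, by simp, by simp [h1], h2⟩
  · exact ⟨.a, by simp, by simp, av_at _ _ hz hz'⟩
  · exact absurd (av_tt _ _ _ hz hz') (fun h => h)
  -- bv
  · exact ⟨.b, by simp, by simp, ab_bv _ hz' hz⟩
  · rename_i i j
    obtain ⟨h1, h2⟩ := av_bv j i hz' hz
    exact ⟨.v j, by simp [h1], by simp, h2⟩
  · rename_i i j
    exact ⟨.b, by simp, by simp, bv_bv i j (fun h => hne (by rw [h])) hz hz'⟩
  · exact absurd (bv_at _ _ hz hz') (fun h => h)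
  · exact absurd (bv_tt _ _ _ hz hz') (fun h => h)
  -- at
  · exact ⟨.a, by simp, by simp, ab_at _ hz' hz⟩
  · exact ⟨.a, by simp, by simp, av_at _ _ hz' hz⟩
  · exact absurd (bv_at _ _ hz' hz) (fun h => h)
  · rename_i k l
    exact ⟨.a, by simp, by simp, at_at k l (fun h => hne (by rw [h])) hz hz'⟩
  · rename_i j k l hkl
    obtain ⟨h1, h2⟩ := at_tt j k l hkl hz hz'
    exact ⟨.t j, by simp, by rcases h1 with h | h <;> simp [h], h2⟩
  -- tt
  · exact absurd (ab_tt _ _ hz' hz) (fun h => h)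
  · exact absurd (av_tt _ _ _ hz' hz) (fun h => h)
  · exact absurd (bv_tt _ _ _ hz' hz) (fun h => h)
  · rename_i k l hkl j
    obtain ⟨h1, h2⟩ := at_tt j k l hkl hz' hz
    exact ⟨.t j, by rcases h1 with h | h <;> simp [h], by simp, h2⟩
  · rename_i k l hkl k' l' hkl'
    obtain ⟨j, h1, h2, h3⟩ := tt_tt hkl hkl' (fun h => hne (by
      rw [Prod.mk.injEq] at h; rw [h.1, h.2])) hz hz'
    exact ⟨.t j, by rcases h1 with h | h <;> simp [h], by rcases h2 with h | h <;> simp [h], h3⟩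

end Static

end Pool.Agent.Lib.MP_14e06f_lc
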