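import Mathlib
import Pool.Agent.Lib.MP_14e06f_lc.YesCase

set_option autoImplicit false

namespace Pool.Agent.Lib.MP_14e06f_lc

open scoped InnerProductSpace

/-! ### Angles of a 3-colouring -/

theorem cos_third {c d : Fin 3} (h : c ≠ d) :
    Real.cos (2 * Real.pi / 3 * (c : ℕ) - 2 * Real.pi / 3 * (d : ℕ)) = -1 / 2 := by
  have e1 : Real.cos (2 * Real.pi / 3) = -1 / 2 := by
    have : 2 * Real.pi / 3 = Real.pi - Real.pi / 3 := by ring
    rw [this, Real.cos_pi_sub, Real.cos_pi_div_three]; norm_num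
  have e2 : Real.cos (2 * Real.pi / 3 * 2) = -1 / 2 := by
    have : 2 * Real.pi / 3 * 2 = 2 * (2 * Real.pi / 3) := by ring
    rw [this, Real.cos_two_mul, e1]; norm_num
  fin_cases c <;> fin_cases d <;> simp at h ⊢
  · exact e1
  · exact e2
  · exact e1
  · rw [show 2 * Real.pi / 3 - 2 * Real.pi / 3 * 2 = -(2 * Real.pi / 3) by ring, Real.cos_neg, e1]
  · exact e2
  · rw [show 2 * Real.pi / 3 * 2 - 2 * Real.pi / 3 = 2 * Real.pi / 3 by ring, e1]

theorem cos_perturb {x η : ℝ} (hx : Real.cos x = -1 / 2) (hη : |η| ≤ 1) :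
    Real.cos (x + η) ≤ -1 / 2 + 5 / 4 * |η| := by
  rw [Real.cos_add, hx]
  have h1 := Real.one_sub_sq_div_two_le_cos (x := η)
  have h2 : -(Real.sin x * Real.sin η) ≤ |η| := by
    calc -(Real.sin x * Real.sin η) ≤ |Real.sin x * Real.sin η| := neg_le_abs _
      _ = |Real.sin x| * |Real.sin η| := abs_mul _ _
      _ ≤ 1 * |η| := by
          apply mul_le_mul (Real.abs_sin_le_one x) (Real.abs_sin_le_abs) (abs_nonneg _) (by norm_num)
      _ = |η| := one_mul _
  have h3 : η ^ 2 ≤ |η| := by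
    rw [← sq_abs]
    nlinarith [abs_nonneg η]
  linarith

section Config

variable {n : ℕ} {H : SimpleGraph (Fin n)}

/-- the angles -/
noncomputable def ang (c : Fin n → Fin 3) (i : Fin n) : ℝ :=
  2 * Real.pi / 3 * (c i : ℕ) + ((i : ℕ) : ℝ) / (2 * ((n : ℝ) + 1) ^ 2)

theorem ang_small (i j : Fin n) :
    |((i : ℕ) : ℝ) / (2 * ((n : ℝ) + 1) ^ 2) - ((j : ℕ) : ℝ) / (2 * ((n : ℝ) + 1) ^ 2)| <
      1 / (2 * ((n : ℝ) + 1)) := by
  have hn : (0 : ℝ) < (n : ℝ) + 1 := by positivity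
  have hi : ((i : ℕ) : ℝ) < n + 1 := by
    have := i.2
    exact_mod_cast Nat.lt_succ_of_lt this
  have hj : ((j : ℕ) : ℝ) < n + 1 := by
    have := j.2
    exact_mod_cast Nat.lt_succ_of_lt this
  have hi0 : (0 : ℝ) ≤ ((i : ℕ) : ℝ) := Nat.cast_nonneg _
  have hj0 : (0 : ℝ) ≤ ((j : ℕ) : ℝ) := Nat.cast_nonneg _
  have e : 1 / (2 * ((n : ℝ) + 1)) = (n + 1) / (2 * (n + 1) ^ 2) := by
    field_simp
  rw [← sub_div, abs_div, abs_of_pos (by positivity : (0 : ℝ) < 2 * ((n : ℝ) + 1) ^ 2), e]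
  apply div_lt_div_of_pos_right _ (by positivity)
  rw [abs_lt]
  constructor <;> linarith

theorem cos_ang_adj (c : Fin n → Fin 3) {i j : Fin n} (h : c i ≠ c j) :
    Real.cos (ang c i - ang c j) ≤ -1 / 2 + 5 / 8 * (1 / ((n : ℝ) + 1)) := by
  have hs := ang_small i j
  have hn : (0 : ℝ) < (n : ℝ) + 1 := by positivity
  have hn1 : (1 : ℝ) ≤ (n : ℝ) + 1 := by
    have : (0 : ℝ) ≤ n := Nat.cast_nonneg n
    linarith
  have h1 : 1 / (2 * ((n : ℝ) + 1)) ≤ 1 := by
    rw [div_le_one (by positivity)]; linarith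
  have e : ang c i - ang c j = (2 * Real.pi / 3 * (c i : ℕ) - 2 * Real.pi / 3 * (c j : ℕ)) +
      (((i : ℕ) : ℝ) / (2 * ((n : ℝ) + 1) ^ 2) - ((j : ℕ) : ℝ) / (2 * ((n : ℝ) + 1) ^ 2)) := by
    simp only [ang]; ring
  rw [e]
  refine (cos_perturb (cos_third h) (by linarith)).trans ?_
  have e2 : 5 / 8 * (1 / ((n : ℝ) + 1)) = 5 / 4 * (1 / (2 * ((n : ℝ) + 1))) := by
    field_simp; norm_num
  rw [e2]
  linarith

theorem cos_ang_lt_one (c : Fin n → Fin 3) {i j : Fin n} (h : i ≠ j) :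
    Real.cos (ang c i - ang c j) < 1 := by
  have hn : (0 : ℝ) < (n : ℝ) + 1 := by positivity
  have hn1 : (1 : ℝ) ≤ (n : ℝ) + 1 := by
    have : (0 : ℝ) ≤ n := Nat.cast_nonneg n
    linarith
  by_cases hc : c i = c j
  · have hs := ang_small i j
    have e : ang c i - ang c j =
      (((i : ℕ) : ℝ) / (2 * ((n : ℝ) + 1) ^ 2) - ((j : ℕ) : ℝ) / (2 * ((n : ℝ) + 1) ^ 2)) := by
      simp only [ang, hc]; ring
    rw [e]
    set η := ((i : ℕ) : ℝ) / (2 * ((n : ℝ) + 1) ^ 2) - ((j : ℕ) : ℝ) / (2 * ((n : ℝ) + 1) ^ 2) with hη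
    have h1 : 1 / (2 * ((n : ℝ) + 1)) ≤ 1 := by
      rw [div_le_one (by positivity)]; linarith
    have hη0 : η ≠ 0 := by
      rw [hη, ← sub_div]
      apply div_ne_zero _ (by positivity)
      rw [sub_ne_zero]
      intro h'
      apply h
      apply Fin.ext
      exact_mod_cast h'
    have hpi := Real.pi_gt_three
    have := Real.cos_lt_cos_of_nonneg_of_le_pi le_rfl (by linarith : |η| ≤ Real.pi)
      (abs_pos.2 hη0)
    rw [Real.cos_abs, Real.cos_zero] at this
    exact this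
  · have := cos_ang_adj c hc
    have h1 : 1 / ((n : ℝ) + 1) ≤ 1 := by
      rw [div_le_one (by positivity)]; linarith
    linarith

/-- coordinates on the circle of radius `√3` -/
noncomputable def cx (c : Fin n → Fin 3) (i : Fin n) : ℝ := Real.sqrt 3 * Real.cos (ang c i)

noncomputable def cy (c : Fin n → Fin 3) (i : Fin n) : ℝ := Real.sqrt 3 * Real.sin (ang c i)

theorem cxy (c : Fin n → Fin 3) (i : Fin n) : cx c i ^ 2 + cy c i ^ 2 = 3 := by
  simp only [cx, cy]
  have := Real.sin_sq_add_cos_sq (ang c i)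
  linear_combination (Real.sqrt 3 ^ 2) * this + sqrt3_sq

theorem cdist (c : Fin n → Fin 3) (i j : Fin n) :
    (cx c i - cx c j) ^ 2 + (cy c i - cy c j) ^ 2 = 6 * (1 - Real.cos (ang c i - ang c j)) := by
  simp only [cx, cy]
  rw [Real.cos_sub]
  have e1 := Real.sin_sq_add_cos_sq (ang c i)
  have e2 := Real.sin_sq_add_cos_sq (ang c j)
  linear_combination (Real.sqrt 3 ^ 2) * e1 + (Real.sqrt 3 ^ 2) * e2 +
    (2 - 2 * (Real.cos (ang c i) * Real.cos (ang c j) + Real.sin (ang c i) * Real.sin (ang c j))) *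
      sqrt3_sq

theorem cinj (c : Fin n → Fin 3) (i j : Fin n) (h1 : cx c i = cx c j) (h2 : cy c i = cy c j) :
    i = j := by
  by_contra h
  have h3 := cdist c i j
  have h4 := cos_ang_lt_one c h
  rw [h1, h2] at h3
  linarith

variable {x y : Fin n → ℝ} {M : Fin n → Fin n → E3}

theorem dist_eq_of_sq {p q : E3} {r : ℝ} (hr : 0 ≤ r)
    (h : (p 0 - q 0) ^ 2 + (p 1 - q 1) ^ 2 + (p 2 - q 2) ^ 2 = r ^ 2) : dist p q = r := by
  rw [← dist_sq_E3] at h
  exact (sq_eq_sq₀ dist_nonneg hr).1 h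

theorem dist_vv (i j : Fin n) :
    dist (pos (H := H) x y M (.v i)) (pos (H := H) x y M (.v j)) ^ 2 =
      (x i - x j) ^ 2 + (y i - y j) ^ 2 := by
  rw [dist_sq_E3]
  simp [pos]

/-- all static bars as a list of pairs of points -/
noncomputable def obst (H : SimpleGraph (Fin n)) (x y : Fin n → ℝ) (M : Fin n → Fin n → E3) :
    List (E3 × E3) :=
  (pos (H := H) x y M .a, pos (H := H) x y M .b) ::
  ((List.finRange n).flatMap fun i =>
    [(pos (H := H) x y M .a, pos (H := H) x y M (.v i)),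
     (pos (H := H) x y M .b, pos (H := H) x y M (.v i))]) ++
  ((List.finRange 3).flatMap fun k =>
    (pos (H := H) x y M .a, pos (H := H) x y M (.t k)) ::
    (List.finRange 3).map fun l => (pos (H := H) x y M (.t k), pos (H := H) x y M (.t l)))

theorem sbar_mem_obst {u v : Vx H} (h : SBar u v) :
    (pos (H := H) x y M u, pos (H := H) x y M v) ∈ obst H x y M := by
  cases h
  · simp [obst]
  · rename_i i
    simp only [obst, List.cons_append, List.mem_cons, List.mem_append, List.mem_flatMap]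
    exact Or.inr (Or.inl ⟨i, List.mem_finRange _, by simp⟩)
  · rename_i i
    simp only [obst, List.cons_append, List.mem_cons, List.mem_append, List.mem_flatMap]
    exact Or.inr (Or.inl ⟨i, List.mem_finRange _, by simp⟩)
  · rename_i k
    simp only [obst, List.cons_append, List.mem_cons, List.mem_append, List.mem_flatMap]
    exact Or.inr (Or.inr ⟨k, List.mem_finRange _, by simp⟩)
  · rename_i k l hkl
    simp only [obst, List.cons_append, List.mem_cons, List.mem_append, List.mem_flatMap]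
    exact Or.inr (Or.inr ⟨k, List.mem_finRange _, Or.inr (by
      rw [List.mem_map]; exact ⟨l, List.mem_finRange _, rfl⟩)⟩)

theorem sbar_mem_obst_of (M' : Fin n → Fin n → E3) {u v : Vx H} (h : SBar u v) :
    (pos (H := H) x y M' u, pos (H := H) x y M' v) ∈ obst H x y M := by
  have e : (pos (H := H) x y M' u, pos (H := H) x y M' v) =
      (pos (H := H) x y M u, pos (H := H) x y M v) := by
    cases h <;> rfl
  rw [e]
  exact sbar_mem_obst h

theorem bar_cases {u v : Vx H} {q : ℚ} (h : Bar H u v q) :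
    SBar u v ∨ ∃ (i j : Fin n) (hij : i < j) (hH : H.Adj i j),
      v = .m i j hij hH ∧ ((u = .v i ∧ q = 10) ∨ (u = .v j ∧ q = 7 + 1 / (n + 1))) := by
  cases h
  · exact Or.inl .ab
  · exact Or.inl (.av _)
  · exact Or.inl (.bv _)
  · rename_i i j hij hH
    exact Or.inr ⟨i, j, hij, hH, rfl, Or.inl ⟨rfl, rfl⟩⟩
  · rename_i i j hij hH
    exact Or.inr ⟨i, j, hij, hH, rfl, Or.inr ⟨rfl, rfl⟩⟩
  · exact Or.inl (.at _)
  · rename_i k l hkl
    exact Or.inl (.tt _ _ hkl)

/-- **YES-instances have a configuration.** -/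
theorem exists_config (H : SimpleGraph (Fin n)) (c : Fin n → Fin 3)
    (hc : ∀ i j, H.Adj i j → c i ≠ c j) : ∃ p : Vx H → E3, (linkageOf H).IsConfig p := by
  classical
  set δ : ℝ := 1 / ((n : ℝ) + 1) with hδ
  have hδ0 : 0 < δ := by positivity
  have hδ1 : δ ≤ 1 := by
    rw [hδ, div_le_one (by positivity)]
    have : (0 : ℝ) ≤ n := Nat.cast_nonneg n
    linarith
  let E := {e : Fin n × Fin n // e.1 < e.2 ∧ H.Adj e.1 e.2}
  let M0 : Fin n → Fin n → E3 := fun _ _ => 0
  let u : E → E3 := fun e => pos (H := H) (cx c) (cy c) M0 (.v e.1.1)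
  let v : E → E3 := fun e => pos (H := H) (cx c) (cy c) M0 (.v e.1.2)
  have hd : ∀ e : E, (3 - δ) < dist (u e) (v e) ∧ dist (u e) (v e) ^ 2 ≤ 12 := by
    intro e
    have h1 : dist (u e) (v e) ^ 2 = 6 * (1 - Real.cos (ang c e.1.1 - ang c e.1.2)) := by
      rw [← cdist]; exact dist_vv _ _
    have h2 := cos_ang_adj c (hc _ _ e.2.2)
    rw [← hδ] at h2
    constructor
    · apply lt_of_pow_lt_pow_left₀ 2 dist_nonneg
      rw [h1]
      nlinarith
    · rw [h1]
      have := Real.neg_one_le_cos (ang c e.1.1 - ang c e.1.2)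
      linarith
  have hlo : ∀ e, |(10 : ℝ) - (7 + δ)| < dist (u e) (v e) := by
    intro e
    rw [abs_of_pos (by linarith)]
    linarith [(hd e).1]
  have hhi : ∀ e, dist (u e) (v e) < 10 + (7 + δ) := by
    intro e
    have := (hd e).2
    nlinarith [dist_nonneg (x := u e) (y := v e)]
  have hOu : ∀ i, ∃ o ∈ obst H (cx c) (cy c) M0, pos (H := H) (cx c) (cy c) M0 (.v i) ∈
      segment ℝ o.1 o.2 := fun i =>
    ⟨_, sbar_mem_obst (.av i), right_mem_segment ℝ _ _⟩
  obtain ⟨Mf, hM1, hM2⟩ := exists_family u v 10 (7 + δ) (by norm_num) (by linarith) hlo hhi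
    (fun e => by
      have := (hd e).2
      have h0 : 0 ≤ dist (u e) (v e) ^ 2 := sq_nonneg _
      have : (7 + δ) ^ 2 ≤ 64 := by nlinarith
      intro h
      linarith)
    (fun e => by
      have := (hd e).2
      have : (7 + δ) ^ 2 ≤ 64 := by nlinarith
      intro h
      linarith)
    (obst H (cx c) (cy c) M0) (fun e => hOu _) (fun e => hOu _)
    (Finset.univ : Finset E).toList (Finset.nodup_toList _)
  have hmem : ∀ e : E, e ∈ (Finset.univ : Finset E).toList := fun e => by simp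
  -- the positions
  let M : Fin n → Fin n → E3 := fun i j => if h : i < j ∧ H.Adj i j then Mf ⟨(i, j), h⟩ else 0
  let p : Vx H → E3 := pos (H := H) (cx c) (cy c) M
  have hpM : ∀ i j (hij : i < j) (hH : H.Adj i j), p (.m i j hij hH) = Mf ⟨(i, j), hij, hH⟩ := by
    intro i j hij hH
    show M i j = _
    simp only [M]
    rw [dif_pos ⟨hij, hH⟩]
  have hpv : ∀ i, p (.v i) = pos (H := H) (cx c) (cy c) M0 (.v i) := fun i => rfl
  have hobst : ∀ s t : Vx H, SBar s t → (p s, p t) ∈ obst H (cx c) (cy c) M0 := fun s t h =>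
    sbar_mem_obst_of M h
  have hinjv : ∀ i j, p (.v i) = p (.v j) → i = j := by
    intro i j h
    apply cinj c i j
    · have := congrArg (fun z : E3 => z 0) h
      simpa [p, pos] using this
    · have := congrArg (fun z : E3 => z 1) h
      simpa [p, pos] using this
  -- a static vertex `v i` on a static bar is an endpoint of it
  have hS2 : ∀ (i : Fin n) (s t : Vx H), SBar s t → p (.v i) ∈ segment ℝ (p s) (p t) →
      (Vx.v i = s ∨ Vx.v i = t) := by
    intro i s t hst hmem'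
    by_cases he : (s, t) = (Vx.a, Vx.v i)
    · rw [Prod.mk.injEq] at he
      exact Or.inr he.2.symm
    · obtain ⟨w, hw1, hw2, hw3⟩ := static_cross (M := M) (cxy c) (cinj c) hst (.av i) he hmem'
        (right_mem_segment ℝ _ _)
      rcases hw2 with rfl | rfl
      · exfalso
        have := congrArg (fun z : E3 => z 2) hw3
        simp [p, pos] at this
      · exact hw1
  refine ⟨p, ?_⟩
  rw [isConfig_iff]
  constructor
  · -- lengths
    intro s t q hb
    cases hb
    · apply dist_eq_of_sq (by norm_num)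
      simp [p, pos]; norm_num
    · rename_i i
      apply dist_eq_of_sq (by norm_num)
      have := cxy c i
      simp [p, pos]; linarith
    · rename_i i
      apply dist_eq_of_sq (by norm_num)
      have := cxy c i
      simp [p, pos]; linarith
    · rename_i i j hij hH
      rw [hpM]
      have := (hM1 _ (hmem ⟨(i, j), hij, hH⟩)).1
      rw [hpv]
      simpa using this
    · rename_i i j hij hH
      rw [hpM]
      have := (hM1 _ (hmem ⟨(i, j), hij, hH⟩)).2.1
      rw [hpv]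
      rw [this, hδ]
      push_cast
      ring
    · rename_i k
      apply dist_eq_of_sq (by norm_num)
      have h3 := sqrt3_sq
      have hh := hT_sq
      fin_cases k <;> simp [p, pos, XT, YT] <;> nlinarith
    · rename_i k l hkl
      apply dist_eq_of_sq (by norm_num)
      have h3 := sqrt3_sq
      fin_cases k <;> fin_cases l <;> simp at hkl <;> simp [p, pos, XT, YT] <;>
        first | nlinarith | norm_num
  · -- no crossings
    intro s t s' t' q r hb hb' hne z hz hz'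
    rcases bar_cases hb with hS | ⟨i, j, hij, hH, rfl, hs⟩ <;>
      rcases bar_cases hb' with hS' | ⟨i', j', hij', hH', rfl, hs'⟩
    · exact static_cross (M := M) (cxy c) (cinj c) hS hS' hne hz hz'
    · -- static against dynamic
      rw [hpM] at hz'
      have hsv : ∃ k, s' = .v k ∧ (p s' = u ⟨(i', j'), hij', hH'⟩ ∨ p s' = v ⟨(i', j'), hij', hH'⟩) := by
        rcases hs' with ⟨rfl, -⟩ | ⟨rfl, -⟩
        · exact ⟨i', rfl, Or.inl rfl⟩
        · exact ⟨j', rfl, Or.inr rfl⟩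
      obtain ⟨k, rfl, hk⟩ := hsv
      have hzk := (hM1 _ (hmem ⟨(i', j'), hij', hH'⟩)).2.2 _ hk
        (p s, p t) (hobst s t hS) z hz' hz
      have h2 := hS2 k s t hS (by rw [← hzk]; exact hz)
      exact ⟨.v k, h2, Or.inl rfl, hzk⟩
    · -- dynamic against static
      rw [hpM] at hz
      have hsv : ∃ k, s = .v k ∧ (p s = u ⟨(i, j), hij, hH⟩ ∨ p s = v ⟨(i, j), hij, hH⟩) := by
        rcases hs with ⟨rfl, -⟩ | ⟨rfl, -⟩
        · exact ⟨i, rfl, Or.inl rfl⟩
        · exact ⟨j, rfl, Or.inr rfl⟩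
      obtain ⟨k, rfl, hk⟩ := hsv
      have hzk := (hM1 _ (hmem ⟨(i, j), hij, hH⟩)).2.2 _ hk
        (p s', p t') (hobst s' t' hS') z hz hz'
      have h2 := hS2 k s' t' hS' (by rw [← hzk]; exact hz')
      exact ⟨.v k, Or.inl rfl, h2, hzk⟩
    · -- dynamic against dynamic
      have hsv : ∃ k, s = .v k ∧ (p s = u ⟨(i, j), hij, hH⟩ ∨ p s = v ⟨(i, j), hij, hH⟩) := by
        rcases hs with ⟨rfl, -⟩ | ⟨rfl, -⟩
        · exact ⟨i, rfl, Or.inl rfl⟩
        · exact ⟨j, rfl, Or.inr rfl⟩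
      have hsv' : ∃ k, s' = .v k ∧ (p s' = u ⟨(i', j'), hij', hH'⟩ ∨ p s' = v ⟨(i', j'), hij', hH'⟩) := by
        rcases hs' with ⟨rfl, -⟩ | ⟨rfl, -⟩
        · exact ⟨i', rfl, Or.inl rfl⟩
        · exact ⟨j', rfl, Or.inr rfl⟩
      by_cases he : (⟨(i, j), hij, hH⟩ : E) = ⟨(i', j'), hij', hH'⟩
      · have he' : i = i' ∧ j = j' := by
          have := congrArg Subtype.val he
          simpa using this
        obtain ⟨rfl, rfl⟩ := he'
        refine ⟨.m i j hij hH, Or.inr rfl, Or.inr rfl, ?_⟩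
        rw [hpM] at hz hz' ⊢
        obtain ⟨d1, d2, -⟩ := hM1 _ (hmem ⟨(i, j), hij, hH⟩)
        rcases hs with ⟨rfl, -⟩ | ⟨rfl, -⟩ <;> rcases hs' with ⟨rfl, -⟩ | ⟨rfl, -⟩
        · exact absurd rfl hne
        · exact chain_meet d1 d2 (hlo _) hz hz'
        · exact chain_meet d1 d2 (hlo _) hz' hz
        · exact absurd rfl hne
      · obtain ⟨k, rfl, hk⟩ := hsv
        obtain ⟨k', rfl, hk'⟩ := hsv'
        rw [hpM] at hz hz'
        obtain ⟨e1, e2⟩ := hM2 _ (hmem ⟨(i, j), hij, hH⟩) _ (hmem ⟨(i', j'), hij', hH'⟩) he _ hk _ hk'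
          z hz hz'
        have : k = k' := hinjv k k' (e1.symm.trans e2)
        subst this
        exact ⟨.v k, Or.inl rfl, Or.inl rfl, e1⟩

end Config

/-! ### The tetrahedron has two orientations -/

section Chirality

variable {n : ℕ} {H : SimpleGraph (Fin n)}

/-- exchange of two vertices of the tetrahedron -/
def flip : Vx H → Vx H
  | .t k => .t (Equiv.swap 1 2 k)
  | x => x

theorem flip_flip (x : Vx H) : flip (flip x) = x := by
  cases x <;> simp [flip]

theorem flip_injective : Function.Injective (flip (H := H)) := fun x y h => by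
  rw [← flip_flip x, h, flip_flip]

theorem flip_adj {x y : Vx H} (h : (linkageOf H).graph.Adj x y) :
    (linkageOf H).graph.Adj (flip x) (flip y) := by
  change (SimpleGraph.fromRel (IsBar H)).Adj x y at h
  show (SimpleGraph.fromRel (IsBar H)).Adj (flip x) (flip y)
  rw [SimpleGraph.fromRel_adj] at h ⊢
  refine ⟨fun e => h.1 (flip_injective e), ?_⟩
  have h2 := h.2
  have h1 := h.1
  cases x <;> cases y <;> simp only [flip, IsBar, or_false, false_or, or_self] at h2 ⊢ <;>
    first | exact h2 | trivial | skip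
  rename_i k l
  have hkl : k ≠ l := fun e => h1 (by rw [e])
  have : Equiv.swap (1 : Fin 3) 2 k ≠ Equiv.swap (1 : Fin 3) 2 l :=
    fun e => hkl ((Equiv.swap (1 : Fin 3) 2).injective e)
  exact lt_or_gt_of_ne this

theorem flip_len (x y : Vx H) : barLen H (flip x) (flip y) = barLen H x y := by
  cases x <;> cases y <;> rfl

theorem flip_config {p : Vx H → E3} (hp : (linkageOf H).IsConfig p) :
    (linkageOf H).IsConfig (fun x => p (flip x)) := by
  obtain ⟨h1, h2⟩ := hp
  constructor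
  · intro u v huv
    have := h1 _ _ (flip_adj huv)
    show dist (p (flip u)) (p (flip v)) = ((barLen H u v : ℚ) : ℝ)
    rw [this, ← flip_len u v]
    rfl
  · intro u v x y huv hxy hne z hz hz'
    obtain ⟨w, a1, a2, a3⟩ := h2 _ _ _ _ (flip_adj huv) (flip_adj hxy) (fun e => hne (by
      rcases Sym2.eq_iff.1 e with ⟨e1, e2⟩ | ⟨e1, e2⟩
      · exact Sym2.eq_iff.2 (Or.inl ⟨flip_injective e1, flip_injective e2⟩)
      · exact Sym2.eq_iff.2 (Or.inr ⟨flip_injective e1, flip_injective e2⟩))) z hz hz'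
    refine ⟨flip w, ?_, ?_, ?_⟩
    · rcases a1 with rfl | rfl
      · exact Or.inl (flip_flip _)
      · exact Or.inr (flip_flip _)
    · rcases a2 with rfl | rfl
      · exact Or.inl (flip_flip _)
      · exact Or.inr (flip_flip _)
    · exact a3.trans (congrArg p (flip_flip w).symm)

/-- orientation of the tetrahedron -/
noncomputable def orient (p : Vx H → E3) : ℝ :=
  (p (.t 0) 0 - p .a 0) * ((p (.t 1) 1 - p .a 1) * (p (.t 2) 2 - p .a 2) -
    (p (.t 1) 2 - p .a 2) * (p (.t 2) 1 - p .a 1)) -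
  (p (.t 0) 1 - p .a 1) * ((p (.t 1) 0 - p .a 0) * (p (.t 2) 2 - p .a 2) -
    (p (.t 1) 2 - p .a 2) * (p (.t 2) 0 - p .a 0)) +
  (p (.t 0) 2 - p .a 2) * ((p (.t 1) 0 - p .a 0) * (p (.t 2) 1 - p .a 1) -
    (p (.t 1) 1 - p .a 1) * (p (.t 2) 0 - p .a 0))

theorem orient_continuous : Continuous (orient (H := H)) := by
  unfold orient
  fun_prop

theorem orient_flip (p : Vx H → E3) : orient (fun x => p (flip x)) = - orient p := by
  have e0 : flip (H := H) (.t 0) = .t 0 := by
    have : Equiv.swap (1 : Fin 3) 2 0 = 0 := by decide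
    simp only [flip, this]
  have e1 : flip (H := H) (.t 1) = .t 2 := by simp [flip]
  have e2 : flip (H := H) (.t 2) = .t 1 := by simp [flip]
  have e3 : flip (H := H) .a = .a := rfl
  unfold orient
  beta_reduce
  rw [e0, e1, e2, e3]
  ring

theorem orient_sq {p : Vx H → E3} (hp : (linkageOf H).IsConfig p) : orient p ^ 2 = 1 / 2 := by
  rw [isConfig_iff] at hp
  obtain ⟨hd, -⟩ := hp
  have sqd : ∀ x y q, Bar H x y q →
      (p x 0 - p y 0) ^ 2 + (p x 1 - p y 1) ^ 2 + (p x 2 - p y 2) ^ 2 = (q : ℝ) ^ 2 := by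
    intro x y q h
    rw [← dist_sq_E3, hd x y q h]
  have a0 := sqd _ _ _ (Bar.at 0)
  have a1 := sqd _ _ _ (Bar.at 1)
  have a2 := sqd _ _ _ (Bar.at 2)
  have b01 := sqd _ _ _ (Bar.tt 0 1 (by decide))
  have b02 := sqd _ _ _ (Bar.tt 0 2 (by decide))
  have b12 := sqd _ _ _ (Bar.tt 1 2 (by decide))
  simp only [Rat.cast_one, one_pow] at a0 a1 a2 b01 b02 b12
  unfold orient
  -- abbreviations for the difference vectors
  set x0 := p (.t 0) 0 - p .a 0 with hx0
  set x1 := p (.t 0) 1 - p .a 1 with hx1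
  set x2 := p (.t 0) 2 - p .a 2 with hx2
  set y0 := p (.t 1) 0 - p .a 0 with hy0
  set y1 := p (.t 1) 1 - p .a 1 with hy1
  set y2 := p (.t 1) 2 - p .a 2 with hy2
  set z0 := p (.t 2) 0 - p .a 0 with hz0
  set z1 := p (.t 2) 1 - p .a 1 with hz1
  set z2 := p (.t 2) 2 - p .a 2 with hz2
  have gxx : x0 ^ 2 + x1 ^ 2 + x2 ^ 2 = 1 := by rw [hx0, hx1, hx2]; linarith
  have gyy : y0 ^ 2 + y1 ^ 2 + y2 ^ 2 = 1 := by rw [hy0, hy1, hy2]; linarith
  have gzz : z0 ^ 2 + z1 ^ 2 + z2 ^ 2 = 1 := by rw [hz0, hz1, hz2]; linarith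
  have gxy : x0 * y0 + x1 * y1 + x2 * y2 = 1 / 2 := by
    have : (x0 - y0) ^ 2 + (x1 - y1) ^ 2 + (x2 - y2) ^ 2 = 1 := by
      rw [hx0, hx1, hx2, hy0, hy1, hy2]; linarith
    linarith
  have gxz : x0 * z0 + x1 * z1 + x2 * z2 = 1 / 2 := by
    have : (x0 - z0) ^ 2 + (x1 - z1) ^ 2 + (x2 - z2) ^ 2 = 1 := by
      rw [hx0, hx1, hx2, hz0, hz1, hz2]; linarith
    linarith
  have gyz : y0 * z0 + y1 * z1 + y2 * z2 = 1 / 2 := by
    have : (y0 - z0) ^ 2 + (y1 - z1) ^ 2 + (y2 - z2) ^ 2 = 1 := by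
      rw [hy0, hy1, hy2, hz0, hz1, hz2]; linarith
    linarith
  have key : (x0 * (y1 * z2 - y2 * z1) - x1 * (y0 * z2 - y2 * z0) + x2 * (y0 * z1 - y1 * z0)) ^ 2 =
      (x0 ^ 2 + x1 ^ 2 + x2 ^ 2) * (y0 ^ 2 + y1 ^ 2 + y2 ^ 2) * (z0 ^ 2 + z1 ^ 2 + z2 ^ 2) +
      2 * (x0 * y0 + x1 * y1 + x2 * y2) * (x0 * z0 + x1 * z1 + x2 * z2) * (y0 * z0 + y1 * z1 + y2 * z2)
      - (x0 ^ 2 + x1 ^ 2 + x2 ^ 2) * (y0 * z0 + y1 * z1 + y2 * z2) ^ 2
      - (y0 ^ 2 + y1 ^ 2 + y2 ^ 2) * (x0 * z0 + x1 * z1 + x2 * z2) ^ 2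
      - (z0 ^ 2 + z1 ^ 2 + z2 ^ 2) * (x0 * y0 + x1 * y1 + x2 * y2) ^ 2 := by ring
  rw [key, gxx, gyy, gzz, gxy, gxz, gyz]
  norm_num

/-- a configuration cannot be moved to the one with `t 1` and `t 2` exchanged -/
theorem not_joined {p : Vx H → E3} (hp : (linkageOf H).IsConfig p) :
    ¬ JoinedIn (linkageOf H).configSpace p (fun x => p (flip x)) := by
  intro hj
  have hj' : JoinedIn (X := Vx H → E3) {q : Vx H → E3 | (linkageOf H).IsConfig q} p
    (fun x => p (flip x)) := hj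
  obtain ⟨γ, hγ⟩ := hj'
  have hcont : Continuous fun t : unitInterval => orient (H := H) (γ t) :=
    orient_continuous.comp γ.continuous
  have h0 : orient (H := H) (γ 0) = orient p := by rw [γ.source]
  have h1 : orient (H := H) (γ 1) = - orient p := by rw [γ.target, orient_flip]
  have hsq := orient_sq hp
  have hzero : ∃ t : unitInterval, orient (H := H) (γ t) = 0 := by
    rcases le_total 0 (orient p) with h | h
    · have := intermediate_value_univ (1 : unitInterval) 0 hcont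
      exact this ⟨by rw [h1]; linarith, by rw [h0]; exact h⟩
    · have := intermediate_value_univ (0 : unitInterval) 1 hcont
      exact this ⟨by rw [h0]; exact h, by rw [h1]; linarith⟩
  obtain ⟨t, ht⟩ := hzero
  have := orient_sq (H := H) (p := γ t) (hγ t)
  rw [ht] at this
  norm_num at this

end Chirality

/-- **Main equivalence.** -/
theorem locked_iff_colorable {n : ℕ} (H : SimpleGraph (Fin n)) :
    (linkageOf H).Locked ↔ H.Colorable 3 := by
  constructor
  · rintro ⟨p, q, hp, -, -⟩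
    exact colorable_of_config H p hp
  · rintro ⟨C⟩
    obtain ⟨p, hp⟩ := exists_config H C (fun i j h => C.valid h)
    exact ⟨p, _, hp, flip_config hp, not_joined hp⟩

end Pool.Agent.Lib.MP_14e06f_lc
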